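import Mathlib

/-! Abel type identities and the explicit solution of the moment equations. -/

set_option autoImplicit false

namespace Pool.Agent.X145.DL

open Finset Polynomial

/-- Abel polynomials `A_m = X (X+m)^(m-1)` -/
noncomputable def A : ℕ → ℝ[X]
  | 0 => 1
  | m + 1 => X * (X + C ((m:ℝ) + 1)) ^ m

theorem A_zero : A 0 = 1 := rfl
theorem A_succ (m : ℕ) : A (m+1) = X * (X + C ((m:ℝ) + 1)) ^ m := rfl

theorem A_eval (m : ℕ) (y : ℝ) : (A (m+1)).eval y = y * (y + m + 1) ^ m := by
  rw [A_succ]; simp [add_assoc]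

theorem A_eval_zero (m : ℕ) : (A (m+1)).eval 0 = 0 := by
  rw [A_eval]; simp

theorem A_deriv (m : ℕ) : derivative (A (m+1)) = C ((m:ℝ) + 1) * (A m).comp (X + 1) := by
  rcases m with _ | m
  · simp [A]
  · rw [A_succ, A_succ]
    simp only [derivative_mul, derivative_X, one_mul, mul_comp, X_comp, pow_comp, add_comp, C_comp,
      derivative_pow, derivative_add, derivative_C, add_zero, mul_one]
    push_cast
    have : (X + 1 + C ((m:ℝ) + 1) : ℝ[X]) = X + C ((m:ℝ) + 1 + 1) := by
      simp [C_add]; ring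
    rw [this, pow_succ]
    simp only [C_add, C_1, map_natCast]
    ring

/-- uniqueness for sequences of polynomials with `P_n' = n P_{n-1}(X+1)` -/
theorem poly_unique (P Q : ℕ → ℝ[X]) (h0 : P 0 = Q 0)
    (hP : ∀ n, derivative (P (n+1)) = C ((n:ℝ) + 1) * (P n).comp (X + 1))
    (hQ : ∀ n, derivative (Q (n+1)) = C ((n:ℝ) + 1) * (Q n).comp (X + 1))
    (he : ∀ n, (P n).eval 0 = (Q n).eval 0) : ∀ n, P n = Q n := by
  intro n
  induction n with
  | zero => exact h0
  | succ n ih =>
    have h1 : derivative (P (n+1) - Q (n+1)) = 0 := by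
      rw [derivative_sub, hP, hQ, ih, sub_self]
    have h2 := derivative_eq_zero.1 h1
    have h3 := eq_C_of_natDegree_eq_zero h2
    have h4 : (P (n+1) - Q (n+1)).eval 0 = 0 := by rw [eval_sub, he, sub_self]
    rw [h3, eval_C] at h4
    rw [h4, C_0] at h3
    exact sub_eq_zero.1 h3

theorem fsum_comp {ι : Type*} (s : Finset ι) (f : ι → ℝ[X]) (q : ℝ[X]) :
    (∑ i ∈ s, f i).comp q = ∑ i ∈ s, (f i).comp q :=
  map_sum (compRingHom q) f s

/-- general convolution with a sequence of numbers -/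
noncomputable def conv (c : ℕ → ℝ) (n : ℕ) : ℝ[X] :=
  ∑ r ∈ range (n + 1), C (((n.choose r : ℕ) : ℝ) * c r) * A (n - r)

theorem conv_deriv (c : ℕ → ℝ) (n : ℕ) :
    derivative (conv c (n+1)) = C ((n:ℝ) + 1) * (conv c n).comp (X + 1) := by
  unfold conv
  rw [sum_range_succ, Nat.sub_self, A_zero, mul_one, derivative_add, derivative_C, add_zero,
    derivative_sum, fsum_comp, mul_sum]
  apply sum_congr rfl
  intro r hr
  have hr' : r ≤ n := by simpa [Nat.lt_succ_iff] using hr
  rw [derivative_C_mul]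
  obtain ⟨d, rfl⟩ := Nat.exists_eq_add_of_le hr'
  have h2 : r + d + 1 - r = d + 1 := by omega
  have h3 : r + d - r = d := by omega
  rw [h2, h3, A_deriv, mul_comp, C_comp]
  have h4 : ((((r + d + 1).choose r : ℕ) : ℝ) * c r) * ((d:ℝ) + 1)
      = (((r + d : ℕ) : ℝ) + 1) * ((((r + d).choose r : ℕ) : ℝ) * c r) := by
    have h5 := Nat.choose_mul_succ_eq (r + d) r
    have h6 : r + d + 1 - r = d + 1 := by omega
    rw [h6] at h5
    have h7 : ((((r + d).choose r : ℕ) : ℝ)) * (((r + d : ℕ) : ℝ) + 1)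
        = (((r + d + 1).choose r : ℕ) : ℝ) * ((d:ℝ) + 1) := by exact_mod_cast h5
    calc ((((r + d + 1).choose r : ℕ) : ℝ) * c r) * ((d:ℝ) + 1)
        = ((((r + d + 1).choose r : ℕ) : ℝ) * ((d:ℝ) + 1)) * c r := by ring
      _ = _ := by rw [← h7]; ring
  rw [← mul_assoc, ← C_mul, h4, C_mul]
  push_cast
  ring

theorem conv_eval_zero (c : ℕ → ℝ) (n : ℕ) : (conv c n).eval 0 = c n := by
  unfold conv
  rw [eval_finsetSum, sum_range_succ]
  have h1 : ∑ r ∈ range n, (C (((n.choose r : ℕ) : ℝ) * c r) * A (n - r)).eval 0 = 0 := by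
    apply sum_eq_zero
    intro r hr
    have hr' : r < n := by simpa using hr
    obtain ⟨d, hd⟩ : ∃ d, n - r = d + 1 := ⟨n - r - 1, by omega⟩
    rw [hd, eval_mul, A_eval_zero, mul_zero]
  rw [h1]
  simp [A]

/-- first identity -/
theorem abel_one (n : ℕ) (y : ℝ) :
    ∑ r ∈ range (n + 1), (((n.choose r : ℕ) : ℝ) * ((r:ℝ) + 1) ^ r) * (A (n - r)).eval y
      = (y + 1 + n) ^ n := by
  have key := poly_unique (conv (fun r => ((r:ℝ) + 1) ^ r)) (fun n => (X + C ((n:ℝ) + 1)) ^ n)
    (by simp [conv, A]) (conv_deriv _) (by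
      intro n
      simp only [derivative_pow, derivative_add, derivative_X, derivative_C, add_zero, mul_one,
        pow_comp, add_comp, X_comp, C_comp, Nat.add_sub_cancel]
      push_cast
      simp only [C_add, C_1, map_natCast]
      ring_nf) (by
      intro n
      rw [conv_eval_zero]; simp)
  have h := congrArg (fun p => p.eval y) (key n)
  simp only [conv, eval_finsetSum, eval_mul, eval_C, eval_pow, eval_add, eval_X] at h
  rw [h]; ring

/-- second identity -/
theorem abel_two (n : ℕ) (y : ℝ) :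
    ∑ r ∈ range (n + 1), (((n.choose r : ℕ) : ℝ) * (A r).eval 1) * (A (n - r)).eval y
      = (A n).eval (y + 1) := by
  have key := poly_unique (conv (fun r => (A r).eval 1)) (fun n => (A n).comp (X + 1))
    (by simp [conv, A]) (conv_deriv _) (by
      intro n
      rw [derivative_comp, A_deriv, mul_comp, C_comp]
      simp) (by
      intro n
      rw [conv_eval_zero, eval_comp]; simp)
  have h := congrArg (fun p => p.eval y) (key n)
  simp only [conv, eval_finsetSum, eval_mul, eval_C, eval_comp, eval_add, eval_X, eval_one] at h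
  exact h

end Pool.Agent.X145.DL
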