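import Pool.Agent.X145.DL.Moments

/-! Rank one compressions and traces of powers. -/

set_option autoImplicit false
set_option linter.unusedSectionVars false

namespace Pool.Agent.X145.DL

open Finset Matrix

/-- the auxiliary sequence of a sequence `x` (with `x 0 = 1`) -/
noncomputable def w (x : ℕ → ℂ) (n : ℕ) : ℂ := x (n + 1) - ∑ i : Fin n, x (n - i) * w x i
termination_by n
decreasing_by exact i.isLt

theorem w_eq (x : ℕ → ℂ) (n : ℕ) : w x n = x (n + 1) - ∑ i ∈ range n, x (n - i) * w x i := by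
  rw [w, Finset.sum_range]

/-- the drift functional -/
noncomputable def drift (x : ℕ → ℂ) (p : ℕ) : ℂ := ∑ s ∈ range p, ((s:ℂ) + 1) * x (p - 1 - s) * w x s

theorem w_unique (x u : ℕ → ℂ) (h0 : x 0 = 1)
    (h : ∀ n, x (n + 1) = ∑ i ∈ range (n + 1), x (n - i) * u i) (n : ℕ) : w x n = u n := by
  induction n using Nat.strong_induction_on with
  | _ n ih =>
    rw [w_eq, h n, sum_range_succ, Nat.sub_self, h0, one_mul]
    have : ∑ i ∈ range n, x (n - i) * w x i = ∑ i ∈ range n, x (n - i) * u i := by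
      apply sum_congr rfl
      intro i hi
      rw [ih i (mem_range.1 hi)]
    rw [this]; ring

theorem w_bound (x : ℕ → ℂ) (hx : ∀ a, ‖x a‖ ≤ 1) (n : ℕ) : ‖w x n‖ ≤ 2 ^ n := by
  induction n using Nat.strong_induction_on with
  | _ n ih =>
    rw [w_eq]
    have h1 : ‖∑ i ∈ range n, x (n - i) * w x i‖ ≤ ∑ i ∈ range n, (2:ℝ) ^ i := by
      refine (norm_sum_le _ _).trans (sum_le_sum ?_)
      intro i hi
      rw [norm_mul]
      have := ih i (mem_range.1 hi)
      have h2 := hx (n - i)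
      calc ‖x (n - i)‖ * ‖w x i‖ ≤ 1 * 2 ^ i := mul_le_mul h2 this (norm_nonneg _) (by norm_num)
        _ = _ := one_mul _
    have h3 : ∑ i ∈ range n, (2:ℝ) ^ i = 2 ^ n - 1 := by
      have := geom_sum_eq (show (2:ℝ) ≠ 1 by norm_num) n
      rw [this]; norm_num
    calc ‖x (n+1) - ∑ i ∈ range n, x (n - i) * w x i‖
        ≤ ‖x (n+1)‖ + ‖∑ i ∈ range n, x (n - i) * w x i‖ := norm_sub_le _ _
      _ ≤ 1 + (2 ^ n - 1) := add_le_add (hx _) (h1.trans h3.le)
      _ = _ := by ring

theorem dist_mono (x x' : ℕ → ℂ) {m n : ℕ} (h : m ≤ n) :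
    ∑ a ∈ range m, ‖x a - x' a‖ ≤ ∑ a ∈ range n, ‖x a - x' a‖ :=
  sum_le_sum_of_subset_of_nonneg (range_mono h) (fun _ _ _ => norm_nonneg _)

theorem dist_single (x x' : ℕ → ℂ) {a n : ℕ} (h : a < n) :
    ‖x a - x' a‖ ≤ ∑ a ∈ range n, ‖x a - x' a‖ :=
  single_le_sum (f := fun a => ‖x a - x' a‖) (fun _ _ => norm_nonneg _) (mem_range.2 h)

theorem mul_diff (a b a' b' : ℂ) (ha : ‖a'‖ ≤ 1) {B : ℝ} (hb : ‖b‖ ≤ B) :
    ‖a * b - a' * b'‖ ≤ ‖a - a'‖ * B + ‖b - b'‖ := by
  have : a * b - a' * b' = (a - a') * b + a' * (b - b') := by ring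
  rw [this]
  refine (norm_add_le _ _).trans ?_
  rw [norm_mul, norm_mul]
  have h1 := mul_le_mul_of_nonneg_left hb (norm_nonneg (a - a'))
  have h2 := mul_le_mul_of_nonneg_right ha (norm_nonneg (b - b'))
  linarith

theorem w_lip (n : ℕ) : ∃ L : ℝ, 0 ≤ L ∧ ∀ x x' : ℕ → ℂ, (∀ a, ‖x a‖ ≤ 1) → (∀ a, ‖x' a‖ ≤ 1) →
    ‖w x n - w x' n‖ ≤ L * ∑ a ∈ range (n + 2), ‖x a - x' a‖ := by
  induction n using Nat.strong_induction_on with
  | _ n ih =>
    choose! L hL0 hL using ih
    refine ⟨1 + ∑ i ∈ range n, (2 ^ i + L i), ?_, ?_⟩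
    · have : 0 ≤ ∑ i ∈ range n, (2 ^ i + L i) := by
        apply sum_nonneg
        intro i hi
        have := hL0 i (mem_range.1 hi)
        positivity
      linarith
    · intro x x' hx hx'
      rw [w_eq, w_eq]
      set D := ∑ a ∈ range (n + 2), ‖x a - x' a‖ with hD
      have hD0 : 0 ≤ D := sum_nonneg (fun _ _ => norm_nonneg _)
      have e : x (n+1) - ∑ i ∈ range n, x (n - i) * w x i - (x' (n+1) - ∑ i ∈ range n, x' (n - i) * w x' i)
          = (x (n+1) - x' (n+1)) - ∑ i ∈ range n, (x (n - i) * w x i - x' (n - i) * w x' i) := by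
        rw [sum_sub_distrib]; ring
      rw [e]
      have h1 : ‖x (n+1) - x' (n+1)‖ ≤ D := dist_single x x' (by omega)
      have h2 : ‖∑ i ∈ range n, (x (n - i) * w x i - x' (n - i) * w x' i)‖ ≤ (∑ i ∈ range n, (2 ^ i + L i)) * D := by
        refine (norm_sum_le _ _).trans ?_
        rw [sum_mul]
        apply sum_le_sum
        intro i hi
        have hi' := mem_range.1 hi
        have h3 := mul_diff (x (n-i)) (w x i) (x' (n-i)) (w x' i) (hx' _) (w_bound x hx i)
        have h4 : ‖x (n - i) - x' (n - i)‖ ≤ D := dist_single x x' (by omega)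
        have h5 := (hL i hi' x x' hx hx').trans
          (mul_le_mul_of_nonneg_left (dist_mono x x' (show i + 2 ≤ n + 2 by omega)) (hL0 i hi'))
        have h6 : ‖x (n - i) - x' (n - i)‖ * 2 ^ i ≤ D * 2 ^ i := mul_le_mul_of_nonneg_right h4 (by positivity)
        linarith
      refine (norm_sub_le _ _).trans ?_
      linarith

theorem drift_lip (p : ℕ) : ∃ L : ℝ, 0 ≤ L ∧ ∀ x x' : ℕ → ℂ, (∀ a, ‖x a‖ ≤ 1) → (∀ a, ‖x' a‖ ≤ 1) →
    ‖drift x p - drift x' p‖ ≤ L * ∑ a ∈ range (p + 1), ‖x a - x' a‖ := by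
  choose L hL0 hL using w_lip
  refine ⟨∑ s ∈ range p, ((s:ℝ) + 1) * (2 ^ s + L s), ?_, ?_⟩
  · apply sum_nonneg
    intro s _
    have := hL0 s
    positivity
  · intro x x' hx hx'
    unfold drift
    rw [← sum_sub_distrib, sum_mul]
    refine (norm_sum_le _ _).trans (sum_le_sum ?_)
    intro s hs
    have hs' := mem_range.1 hs
    have e : ((s:ℂ) + 1) * x (p - 1 - s) * w x s - ((s:ℂ) + 1) * x' (p - 1 - s) * w x' s
        = ((s:ℂ) + 1) * (x (p - 1 - s) * w x s - x' (p - 1 - s) * w x' s) := by ring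
    rw [e, norm_mul]
    have hn : ‖((s:ℂ) + 1)‖ = (s:ℝ) + 1 := by
      have : ((s:ℂ) + 1) = ((s + 1 : ℕ) : ℂ) := by push_cast; ring
      rw [this, Complex.norm_natCast]; push_cast; ring
    rw [hn, mul_assoc]
    apply mul_le_mul_of_nonneg_left _ (by positivity)
    have h3 := mul_diff (x (p-1-s)) (w x s) (x' (p-1-s)) (w x' s) (hx' _) (w_bound x hx s)
    have h4 : ‖x (p-1-s) - x' (p-1-s)‖ ≤ ∑ a ∈ range (p + 1), ‖x a - x' a‖ := dist_single x x' (by omega)
    have h5 := (hL s x x' hx hx').trans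
      (mul_le_mul_of_nonneg_left (dist_mono x x' (show s + 2 ≤ p + 1 by omega)) (hL0 s))
    have h6 : ‖x (p-1-s) - x' (p-1-s)‖ * 2 ^ s ≤ (∑ a ∈ range (p + 1), ‖x a - x' a‖) * 2 ^ s :=
      mul_le_mul_of_nonneg_right h4 (by positivity)
    linarith

/-! matrices -/

section mat
variable {ι : Type*} [Fintype ι] [DecidableEq ι] (C : Matrix ι ι ℂ) (v : ι → ℂ)

/-- the compressed matrix `(1 - v v†) C` -/
def comp : Matrix ι ι ℂ := C - vecMulVec v (star v) * C

/-- `v† C^a M^j v` -/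
def yy (a j : ℕ) : ℂ := star v ⬝ᵥ ((C ^ a * comp C v ^ j) *ᵥ v)

theorem vmv (a b c : ι → ℂ) : (vecMulVec a b) *ᵥ c = (b ⬝ᵥ c) • a := by
  ext i
  simp only [mulVec, vecMulVec_apply, dotProduct, Pi.smul_apply, smul_eq_mul]
  rw [Finset.sum_mul]
  apply sum_congr rfl
  intro j _
  ring

theorem yy_rec (a j : ℕ) : yy C v a (j + 1) = yy C v (a + 1) j - yy C v a 0 * yy C v 1 j := by
  unfold yy
  have h1 : C ^ a * comp C v ^ (j + 1) = C ^ (a + 1) * comp C v ^ j
      - C ^ a * (vecMulVec v (star v) * (C * comp C v ^ j)) := by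
    rw [pow_succ' (comp C v) j, pow_succ C a]
    nth_rewrite 1 [comp]
    rw [sub_mul, mul_sub]
    simp only [mul_assoc]
  rw [h1, sub_mulVec, dotProduct_sub, pow_zero, mul_one, pow_one]
  congr 1
  rw [← mulVec_mulVec, ← mulVec_mulVec, vmv, mulVec_smul, dotProduct_smul, smul_eq_mul, mul_comm]

theorem trace_vmv (X Y : Matrix ι ι ℂ) (b : ι → ℂ) :
    (X * vecMulVec v b * Y).trace = b ⬝ᵥ ((Y * X) *ᵥ v) := by
  rw [trace_mul_comm, ← mul_assoc]
  simp only [Matrix.trace, diag_apply, Matrix.mul_apply, vecMulVec_apply, dotProduct, mulVec]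
  rw [Finset.sum_congr rfl (fun i _ => Finset.sum_congr rfl (fun j _ => by rfl))]
  have : ∀ i, ∑ j, (∑ k, Y i k * X k j) * (v j * b i) = b i * ∑ j, (∑ k, Y i k * X k j) * v j := by
    intro i
    rw [Finset.mul_sum]
    apply sum_congr rfl
    intro j _
    ring
  exact sum_congr rfl (fun i _ => this i)

theorem trace_diff (p q : ℕ) :
    ((C ^ p - comp C v ^ p) * C ^ q).trace = ∑ j ∈ range p, yy C v (p + q - j) j := by
  induction p generalizing q with
  | zero => simp
  | succ p ih =>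
    have h1 : (C ^ (p+1) - comp C v ^ (p+1)) * C ^ q
        = (C ^ p - comp C v ^ p) * C ^ (q + 1) + comp C v ^ p * vecMulVec v (star v) * C ^ (q + 1) := by
      rw [pow_succ C p, pow_succ (comp C v) p, pow_succ' C q]
      nth_rewrite 2 [comp]
      noncomm_ring
    rw [h1, trace_add, ih, trace_vmv, sum_range_succ]
    congr 1
    · apply sum_congr rfl
      intro j hj
      congr 1
      omega
    · unfold yy
      have : p + 1 + q - p = q + 1 := by omega
      rw [this]

theorem yy_unroll (hv : star v ⬝ᵥ v = 1) (a : ℕ) : ∀ j, yy C v (a + 1) j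
    = ∑ i ∈ range (a + 1), yy C v (a - i) 0 * yy C v 1 (j + i) := by
  have h0 : yy C v 0 0 = 1 := by simp [yy, hv]
  induction a with
  | zero => intro j; simp [h0]
  | succ a ih =>
    intro j
    have h1 := yy_rec C v (a + 1) j
    have h2 : yy C v (a + 1 + 1) j = yy C v (a + 1) (j + 1) + yy C v (a + 1) 0 * yy C v 1 j := by
      rw [h1]; ring
    rw [h2, ih (j + 1), sum_range_succ' _ (a + 1)]
    simp only [Nat.sub_zero, add_zero]
    congr 1
    apply sum_congr rfl
    intro i _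
    have e1 : a + 1 - (i + 1) = a - i := by omega
    have e2 : j + (i + 1) = j + 1 + i := by omega
    rw [e1, e2]

/-- the quadratic forms -/
def qf (a : ℕ) : ℂ := star v ⬝ᵥ ((C ^ a) *ᵥ v)

theorem yy_zero (a : ℕ) : yy C v a 0 = qf C v a := by
  unfold yy qf
  rw [pow_zero, mul_one]

theorem w_qf (hv : star v ⬝ᵥ v = 1) (n : ℕ) : w (qf C v) n = yy C v 1 n := by
  apply w_unique
  · simp [qf, hv]
  · intro m
    have := yy_unroll C v hv m 0
    rw [yy_zero] at this
    rw [this]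
    apply sum_congr rfl
    intro i _
    rw [yy_zero, zero_add]

/-- the change of the trace of a power under a rank one compression -/
theorem trace_step (hv : star v ⬝ᵥ v = 1) (p : ℕ) :
    (C ^ p).trace - (comp C v ^ p).trace = drift (qf C v) p := by
  rcases p with _ | n
  · simp [drift]
  · have h1 := trace_diff C v (n + 1) 0
    rw [pow_zero, mul_one, trace_sub, add_zero] at h1
    rw [h1]
    have h2 : ∀ j ∈ range (n + 1), yy C v (n + 1 - j) j
        = ∑ i ∈ range (n - j + 1), yy C v (n - j - i) 0 * yy C v 1 (j + i) := by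
      intro j hj
      have hj' : j ≤ n := by simpa [Nat.lt_succ_iff] using hj
      have e : n + 1 - j = (n - j) + 1 := by omega
      rw [e]
      exact yy_unroll C v hv (n - j) j
    rw [sum_congr rfl h2, sum_reindex n (fun j i => yy C v (n - j - i) 0 * yy C v 1 (j + i))]
    unfold drift
    apply sum_congr rfl
    intro r hr
    have hr' : r ≤ n := by simpa [Nat.lt_succ_iff] using hr
    have h3 : ∀ i ∈ range (r + 1), yy C v (n - i - (r - i)) 0 * yy C v 1 (i + (r - i))
        = qf C v (n - r) * w (qf C v) r := by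
      intro i hi
      have hi' : i ≤ r := by simpa [Nat.lt_succ_iff] using hi
      have e1 : n - i - (r - i) = n - r := by omega
      have e2 : i + (r - i) = r := by omega
      rw [e1, e2, yy_zero, w_qf C v hv]
    rw [sum_congr rfl h3, sum_const, card_range, nsmul_eq_mul, Nat.add_sub_cancel]
    push_cast
    ring

end mat

end Pool.Agent.X145.DL
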