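import Pool.Agent.X145.DL.Step

/-! Deterministic estimates for the limiting moments; discrete Gronwall. -/

set_option autoImplicit false
set_option linter.unusedSectionVars false

namespace Pool.Agent.X145.DL

open Finset Matrix
open scoped ComplexOrder

/-- the limiting moments as a complex sequence -/
noncomputable def mc (t : ℝ) (a : ℕ) : ℂ := (mom a t : ℂ)

theorem mc_norm (t : ℝ) (ht : 0 ≤ t) (a : ℕ) : ‖mc t a‖ ≤ 1 := by
  unfold mc
  rw [Complex.norm_real, Real.norm_eq_abs, abs_of_nonneg (mom_nonneg a t ht)]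
  exact mom_le_one a t ht

theorem drift_mc (t : ℝ) (p : ℕ) : drift (mc t) p = (rate p t : ℂ) := by
  have hw : ∀ i, w (mc t) i = (eta i t : ℂ) := by
    intro i
    apply w_unique
    · simp [mc, mom]
    · intro n
      unfold mc
      rw [mom_rec]
      push_cast; rfl
  rcases p with _ | n
  · simp [drift, rate]
  · rw [rate_rec]
    unfold drift
    push_cast
    apply sum_congr rfl
    intro i _
    rw [hw]
    simp only [mc]

theorem drift_zero (p : ℕ) : drift (fun _ => (0:ℂ)) p = 0 := by simp [drift]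

theorem drift_bd (p : ℕ) : ∃ L : ℝ, 0 ≤ L ∧ ∀ x : ℕ → ℂ, (∀ a, ‖x a‖ ≤ 1) → ‖drift x p‖ ≤ L := by
  obtain ⟨L, hL0, hL⟩ := drift_lip p
  refine ⟨L * (p + 1), by positivity, ?_⟩
  intro x hx
  have h := hL x (fun _ => 0) hx (fun _ => by simp)
  rw [drift_zero, sub_zero] at h
  refine h.trans (mul_le_mul_of_nonneg_left ?_ hL0)
  calc ∑ a ∈ range (p + 1), ‖x a - 0‖ ≤ ∑ _a ∈ range (p + 1), (1:ℝ) := by
        apply sum_le_sum
        intro a _
        rw [sub_zero]; exact hx a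
    _ = p + 1 := by simp

theorem rate_bd (p : ℕ) : ∃ L : ℝ, 0 ≤ L ∧ ∀ t : ℝ, 0 ≤ t → |rate p t| ≤ L := by
  obtain ⟨L, hL0, hL⟩ := drift_bd p
  refine ⟨L, hL0, fun t ht => ?_⟩
  have := hL (mc t) (mc_norm t ht)
  rw [drift_mc, Complex.norm_real] at this
  exact this

theorem mom_lip (p : ℕ) : ∃ L : ℝ, 0 ≤ L ∧ ∀ s t : ℝ, 0 ≤ s → 0 ≤ t → |mom p s - mom p t| ≤ L * |s - t| := by
  obtain ⟨L, hL0, hL⟩ := rate_bd p
  refine ⟨L, hL0, fun s t hs ht => ?_⟩
  have := Convex.norm_image_sub_le_of_norm_hasDerivWithin_le (f := mom p) (f' := fun x => -rate p x)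
    (s := Set.Ici 0) (C := L) (x := t) (y := s)
    (fun x _ => (mom_hasDeriv p x).hasDerivWithinAt)
    (fun x hx => by rw [norm_neg]; exact hL x hx) (convex_Ici 0) ht hs
  simpa [Real.norm_eq_abs] using this

theorem rate_lip (p : ℕ) : ∃ L : ℝ, 0 ≤ L ∧ ∀ s t : ℝ, 0 ≤ s → 0 ≤ t → |rate p s - rate p t| ≤ L * |s - t| := by
  obtain ⟨L, hL0, hL⟩ := drift_lip p
  choose M hM0 hM using mom_lip
  refine ⟨L * ∑ a ∈ range (p + 1), M a, mul_nonneg hL0 (sum_nonneg (fun a _ => hM0 a)), fun s t hs ht => ?_⟩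
  have h := hL (mc s) (mc t) (mc_norm s hs) (mc_norm t ht)
  rw [drift_mc, drift_mc, ← Complex.ofReal_sub, Complex.norm_real, Real.norm_eq_abs] at h
  refine h.trans ?_
  rw [mul_assoc]
  apply mul_le_mul_of_nonneg_left _ hL0
  rw [sum_mul]
  apply sum_le_sum
  intro a _
  unfold mc
  rw [← Complex.ofReal_sub, Complex.norm_real, Real.norm_eq_abs]
  exact hM a s t hs ht

theorem taylor (p : ℕ) : ∃ K : ℝ, 0 ≤ K ∧ ∀ t h : ℝ, 0 ≤ t → 0 ≤ h →
    |mom p (t + h) - mom p t + h * rate p t| ≤ K * h ^ 2 := by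
  obtain ⟨L, hL0, hL⟩ := rate_lip p
  refine ⟨L, hL0, fun t h ht hh => ?_⟩
  have := Convex.norm_image_sub_le_of_norm_hasDerivWithin_le (f := fun x => mom p x + x * rate p t)
    (f' := fun x => -rate p x + 1 * rate p t)
    (s := Set.Icc t (t + h)) (C := L * h) (x := t) (y := t + h)
    (fun x _ => ((mom_hasDeriv p x).add ((hasDerivAt_id x).mul_const _)).hasDerivWithinAt)
    (fun x hx => by
      rw [one_mul, neg_add_eq_sub, Real.norm_eq_abs]
      refine (hL t x ht (ht.trans hx.1)).trans ?_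
      apply mul_le_mul_of_nonneg_left _ hL0
      rw [abs_sub_comm, abs_of_nonneg (by linarith [hx.1])]
      linarith [hx.2])
    (convex_Icc _ _) ⟨le_refl _, by linarith⟩ ⟨by linarith, le_refl _⟩
  have e : mom p (t + h) + (t + h) * rate p t - (mom p t + t * rate p t)
      = mom p (t + h) - mom p t + h * rate p t := by ring
  rw [e, Real.norm_eq_abs, Real.norm_eq_abs, add_sub_cancel_left, abs_of_nonneg hh] at this
  calc _ ≤ L * h * h := this
    _ = _ := by ring

theorem gronwall (e : ℕ → ℝ) (a b : ℝ) (ha : 0 ≤ a) (hb : 0 ≤ b) (h0 : e 0 = 0)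
    (h : ∀ L, e (L + 1) ≤ e L * (1 + a) + b) (L : ℕ) : e L ≤ L * b * Real.exp (a * L) := by
  induction L with
  | zero => simp [h0]
  | succ L ih =>
    have h1 : 1 + a ≤ Real.exp a := by linarith [Real.add_one_le_exp a]
    have h2 : 1 ≤ Real.exp (a * ((L + 1 : ℕ) : ℝ)) := Real.one_le_exp (by positivity)
    have h3 : Real.exp (a * L) * Real.exp a = Real.exp (a * ((L + 1 : ℕ) : ℝ)) := by
      rw [← Real.exp_add]; congr 1; push_cast; ring
    calc e (L + 1) ≤ e L * (1 + a) + b := h L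
      _ ≤ (L * b * Real.exp (a * L)) * (1 + a) + b * Real.exp (a * ((L + 1 : ℕ) : ℝ)) := by
          apply add_le_add
          · exact mul_le_mul_of_nonneg_right ih (by linarith)
          · nlinarith
      _ ≤ (L * b * Real.exp (a * L)) * Real.exp a + b * Real.exp (a * ((L + 1 : ℕ) : ℝ)) := by
          apply add_le_add _ le_rfl
          exact mul_le_mul_of_nonneg_left h1 (by positivity)
      _ = _ := by
          rw [mul_assoc, h3]; push_cast; ring

/-- one step, deterministically -/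
theorem step_bound (p : ℕ) : ∃ Λ K : ℝ, 0 ≤ Λ ∧ 0 ≤ K ∧ ∀ (N : ℕ), 0 < N → ∀ (P : Matrix (Fin N) (Fin N) ℂ),
    Pᴴ = P → P * P = P → ∀ (u : Fin N → ℂ), star u ⬝ᵥ u = 1 → P = 1 - vecMulVec u (star u) →
    ∀ (s : ℕ → Pool.Agent.H667R2.FG.UU N) (L : ℕ),
    ‖mm (CC P s (L + 1)) p - mc (((L + 1 : ℕ) : ℝ) / N) p‖ ≤ ‖mm (CC P s L) p - mc ((L:ℝ) / N) p‖
      + (Λ / N) * ∑ a ∈ range (p + 1), (‖qf (CC P s L) (vec u (s L)) a - mm (CC P s L) a‖
        + ‖mm (CC P s L) a - mc ((L:ℝ) / N) a‖) + K / N ^ 2 := by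
  obtain ⟨Λ, hΛ0, hΛ⟩ := drift_lip p
  obtain ⟨K, hK0, hK⟩ := taylor p
  refine ⟨Λ, K, hΛ0, hK0, ?_⟩
  intro N hN P hP hPP u hu hPu s L
  have hN0 : (0:ℝ) < N := by exact_mod_cast hN
  rw [mm_step P hP hPP u hu hPu]
  set C := CC P s L with hC
  have hCC : Contr C := contr_CC P hP hPP s L
  set v := vec u (s L) with hv
  have hv1 : star v ⬝ᵥ v = 1 := vec_norm u hu (s L)
  set t : ℝ := (L:ℝ) / N with ht
  have ht0 : 0 ≤ t := by positivity
  have ht' : ((L + 1 : ℕ) : ℝ) / N = t + 1 / N := by rw [ht]; push_cast; ring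
  rw [ht']
  have e : mm C p - (1 / (N:ℂ)) * drift (qf C v) p - mc (t + 1 / N) p
      = (mm C p - mc t p) - (1 / (N:ℂ)) * (drift (qf C v) p - drift (mc t) p)
        - ((mom p (t + 1 / N) - mom p t + (1 / N) * rate p t : ℝ) : ℂ) := by
    rw [drift_mc]
    unfold mc
    push_cast
    ring
  rw [e]
  refine (norm_sub_le _ _).trans ?_
  apply add_le_add
  · refine (norm_sub_le _ _).trans ?_
    apply add_le_add le_rfl
    rw [norm_mul, norm_div, norm_one, Complex.norm_natCast]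
    have h1 := hΛ (qf C v) (mc t) (qf_norm C hCC v hv1) (mc_norm t ht0)
    have h2 : ∑ a ∈ range (p + 1), ‖qf C v a - mc t a‖
        ≤ ∑ a ∈ range (p + 1), (‖qf C v a - mm C a‖ + ‖mm C a - mc t a‖) := by
      apply sum_le_sum
      intro a _
      have : qf C v a - mc t a = (qf C v a - mm C a) + (mm C a - mc t a) := by ring
      rw [this]; exact norm_add_le _ _
    have h3 := h1.trans (mul_le_mul_of_nonneg_left h2 hΛ0)
    have h4 := mul_le_mul_of_nonneg_left h3 (show (0:ℝ) ≤ 1 / N by positivity)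
    refine h4.trans (le_of_eq ?_)
    ring
  · rw [Complex.norm_real, Real.norm_eq_abs]
    have := hK t (1 / N) ht0 (by positivity)
    refine this.trans (le_of_eq ?_)
    ring

end Pool.Agent.X145.DL
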