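import Pool.Agent.X145.DL.Final

/-! Existence and uniqueness of the limiting law. -/

set_option autoImplicit false
set_option linter.unusedSectionVars false

namespace Pool.Agent.X145.DL

open Finset Matrix MeasureTheory ProbabilityTheory Pool.Agent.H667R2.FG Filter Topology
open scoped ComplexOrder BoundedContinuousFunction

theorem unique_mu {τ : ℝ} {ν ν' : Measure ℝ} (h : IsMu τ ν) (h' : IsMu τ ν') : ν = ν' := by
  have p1 := h.prob
  have p2 := h'.prob
  apply ext_of_forall_integral_eq_of_IsFiniteMeasure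
  intro f
  have hle : ∀ ε : ℝ, 0 < ε → |∫ x, f x ∂ν - ∫ x, f x ∂ν'| ≤ ε := by
    intro ε hε
    obtain ⟨q, hq⟩ := exists_polynomial_near_of_continuousOn 0 1 f f.continuous.continuousOn (ε / 2) (by positivity)
    have key : ∀ ρ : Measure ℝ, IsMu τ ρ → |∫ x, f x ∂ρ - ∑ j ∈ range (q.natDegree + 1), q.coeff j * mom j τ| ≤ ε / 2 := by
      intro ρ hρ
      have := hρ.prob
      rw [← int_poly hρ, ← integral_sub (int_cont hρ.ae f.continuous) (int_cont hρ.ae (by fun_prop))]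
      have := norm_integral_le_of_norm_le_const (μ := ρ) (f := fun x => f x - q.eval x) (C := ε / 2) (by
        filter_upwards [hρ.ae] with x hx
        rw [Real.norm_eq_abs, abs_sub_comm]
        exact (hq x hx).le)
      simpa [Real.norm_eq_abs] using this
    have h1 := key ν h
    have h2 := key ν' h'
    rw [abs_sub_comm] at h2
    have := abs_sub_le (∫ x, f x ∂ν) (∑ j ∈ range (q.natDegree + 1), q.coeff j * mom j τ) (∫ x, f x ∂ν')
    linarith
  have h0 : |∫ x, f x ∂ν - ∫ x, f x ∂ν'| ≤ 0 := le_of_forall_pos_le_add (fun ε hε => by rw [zero_add]; exact hle ε hε)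
  have := abs_nonpos_iff.1 h0
  linarith

/-- a projection of rank `N - 1` -/
theorem exists_proj (N : ℕ) (hN : 0 < N) : ∃ P : Matrix (Fin N) (Fin N) ℂ, Pᴴ = P ∧ P * P = P ∧ P.rank = N - 1 := by
  classical
  let i0 : Fin N := ⟨0, hN⟩
  refine ⟨diagonal (fun i => if i = i0 then 0 else 1), ?_, ?_, ?_⟩
  · rw [diagonal_conjTranspose]
    congr 1
    funext i
    by_cases h : i = i0 <;> simp [h]
  · rw [diagonal_mul_diagonal]
    congr 1
    funext i
    split_ifs <;> simp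
  · rw [rank_diagonal]
    have : ∀ i : Fin N, ((if i = i0 then (0:ℂ) else 1) ≠ 0) ↔ i ≠ i0 := by
      intro i; split_ifs with h <;> simp [h]
    rw [Fintype.card_congr (Equiv.subtypeEquivRight this), Fintype.card_subtype_compl]
    simp

/-- the model exists -/
theorem exists_model (N : ℕ) (hN : 0 < N) : ∃ (Ω : Type) (_ : MeasurableSpace Ω) (μ : Measure Ω)
    (P : Matrix (Fin N) (Fin N) ℂ) (S : ℕ → Ω → UU N), Model N μ P S := by
  obtain ⟨P, h1, h2, h3⟩ := exists_proj N hN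
  obtain ⟨Ω, hΩ, μ, S, hm, hl, hi, hp⟩ := exists_iid ℕ (haarU N)
  exact ⟨Ω, hΩ, μ, P, S, hp, h1, h2, h3, hm, hi, fun i => (hl i).map_eq⟩

/-- the uniform law on a finite family of points -/
noncomputable def unif {E : Type*} [MeasurableSpace E] (N : ℕ) (x : Fin N → E) : Measure E :=
  ENNReal.ofReal (1 / N) • ∑ k, Measure.dirac (x k)

theorem unif_prob {E : Type*} [MeasurableSpace E] (N : ℕ) (hN : 0 < N) (x : Fin N → E) :
    IsProbabilityMeasure (unif N x) := by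
  constructor
  have hN0 : (0:ℝ) < N := by exact_mod_cast hN
  unfold unif
  simp only [Measure.smul_apply, Measure.finsetSum_apply, measure_univ, sum_const, card_univ, Fintype.card_fin,
    nsmul_eq_mul, mul_one, smul_eq_mul]
  rw [← ENNReal.ofReal_natCast, ← ENNReal.ofReal_mul (by positivity)]
  have : (1 / (N:ℝ)) * N = 1 := by field_simp
  rw [this, ENNReal.ofReal_one]

theorem unif_int {E : Type*} [MeasurableSpace E] [MeasurableSingletonClass E] (N : ℕ) (hN : 0 < N) (x : Fin N → E) (g : E → ℝ) :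
    ∫ y, g y ∂(unif N x) = (∑ k, g (x k)) / N := by
  have hN0 : (0:ℝ) < N := by exact_mod_cast hN
  unfold unif
  rw [integral_smul_measure, integral_finsetSum_measure (fun k _ => integrable_dirac (by simp))]
  simp only [integral_dirac]
  rw [ENNReal.toReal_ofReal (by positivity), smul_eq_mul]
  ring

theorem near (τ : ℝ) (hτ : 0 < τ) (n : ℕ) (δ : ℝ) (hδ : 0 < δ) : ∃ ρ : ProbabilityMeasure (Set.Icc (0:ℝ) 1),
    ∀ p ≤ n, |∫ x, (x : ℝ) ^ p ∂(ρ : Measure (Set.Icc (0:ℝ) 1)) - mom p τ| ≤ δ := by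
  classical
  have hex : ∀ N : ℕ, ∃ (Ω : Type) (_ : MeasurableSpace Ω) (μ : Measure Ω)
    (P : Matrix (Fin N) (Fin N) ℂ) (S : ℕ → Ω → UU N), 2 ≤ N → Model N μ P S := by
    intro N
    by_cases hN : 2 ≤ N
    · obtain ⟨Ω, hΩ, μ, P, S, h⟩ := exists_model N (by omega)
      exact ⟨Ω, hΩ, μ, P, S, fun _ => h⟩
    · exact ⟨Unit, inferInstance, 0, 0, fun _ _ => 1, fun h => absurd h hN⟩
  choose Ω hΩ μ P S hM using hex
  have hL : Tendsto (fun N : ℕ => ((⌈τ * (N:ℝ)⌉₊ : ℕ) : ℝ) / N) atTop (𝓝 τ) :=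
    (tendsto_nat_ceil_mul_div_atTop hτ.le).comp tendsto_natCast_atTop_atTop
  have hd : Tendsto (fun N => ∑ p ∈ range (n + 1), dev (μ N) (P N) (S N) τ (⌈τ * (N:ℝ)⌉₊) p) atTop (𝓝 0) := by
    have : Tendsto (fun N => ∑ p ∈ range (n + 1), dev (μ N) (P N) (S N) τ (⌈τ * (N:ℝ)⌉₊) p) atTop
        (𝓝 (∑ p ∈ range (n + 1), (0:ℝ))) :=
      tendsto_finsetSum _ (fun j _ => dev_tendsto hM hτ hL j)
    simpa using this
  obtain ⟨N, hN1, hN2⟩ := ((hd.eventually (gt_mem_nhds hδ)).and (eventually_ge_atTop 2)).exists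
  have hmod := hM N hN2
  have hp := hmod.prob
  have hN0 : 0 < N := by omega
  set L := ⌈τ * (N:ℝ)⌉₊ with hLdef
  have hint : Integrable (fun ω => ∑ p ∈ range (n + 1), ‖mm (CC (P N) (fun i => S N i ω) L) p - mc τ p‖) (μ N) :=
    integrable_finsetSum _ (fun p _ => dev_int hN0 hmod τ hτ.le L p)
  obtain ⟨ω, hω⟩ := exists_le_integral hint
  have he : ∫ ω, ∑ p ∈ range (n + 1), ‖mm (CC (P N) (fun i => S N i ω) L) p - mc τ p‖ ∂(μ N)
      = ∑ p ∈ range (n + 1), dev (μ N) (P N) (S N) τ L p := by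
    rw [integral_finsetSum _ (fun p _ => dev_int hN0 hmod τ hτ.le L p)]
    rfl
  rw [he] at hω
  set s := fun i => S N i ω with hs
  let x : Fin N → Set.Icc (0:ℝ) 1 := fun k => ⟨sv (prodB (P N) s L) k, sv_mem (P N) hmod.herm hmod.idem s L k⟩
  refine ⟨⟨unif N x, unif_prob N hN0 x⟩, ?_⟩
  intro p hpn
  show |∫ y, (y : ℝ) ^ p ∂(unif N x) - mom p τ| ≤ δ
  rw [unif_int N hN0 x (fun y => (y:ℝ) ^ p)]
  have h1 : |(∑ k, (x k : ℝ) ^ p) / N - mom p τ| = ‖mm (CC (P N) s L) p - mc τ p‖ := by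
    rw [sv_mom]
    unfold mc
    rw [← Complex.ofReal_sub, Complex.norm_real, Real.norm_eq_abs]
  rw [h1]
  refine le_trans ?_ (hω.trans hN1.le)
  exact single_le_sum (f := fun p => ‖mm (CC (P N) s L) p - mc τ p‖) (fun _ _ => norm_nonneg _)
    (mem_range.2 (by omega))

theorem exists_mu (τ : ℝ) (hτ : 0 < τ) : ∃ ν, IsMu τ ν := by
  let f : ℕ → (Set.Icc (0:ℝ) 1 →ᵇ ℝ) := fun p =>
    BoundedContinuousFunction.mkOfCompact ⟨fun x => (x:ℝ) ^ p, by fun_prop⟩
  have hf : ∀ p x, f p x = (x:ℝ) ^ p := fun p x => rfl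
  let K : ℕ → Set (ProbabilityMeasure (Set.Icc (0:ℝ) 1)) := fun n =>
    {ρ | ∀ p ≤ n, |∫ x, f p x ∂(ρ : Measure (Set.Icc (0:ℝ) 1)) - mom p τ| ≤ 1 / ((n:ℝ) + 1)}
  have hcl : ∀ n, IsClosed (K n) := by
    intro n
    have : K n = ⋂ p ∈ Set.Iic n, {ρ : ProbabilityMeasure (Set.Icc (0:ℝ) 1) |
        |∫ x, f p x ∂(ρ : Measure (Set.Icc (0:ℝ) 1)) - mom p τ| ≤ 1 / ((n:ℝ) + 1)} := by
      ext ρ; simp [K]
    rw [this]
    apply isClosed_biInter
    intro p _
    apply isClosed_le _ continuous_const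
    exact ((ProbabilityMeasure.continuous_integral_boundedContinuousFunction (f p)).sub continuous_const).abs
  have hne := IsCompact.nonempty_iInter_of_sequence_nonempty_isCompact_isClosed K
    (by
      intro n ρ hρ p hp
      refine (hρ p (by omega)).trans ?_
      apply one_div_le_one_div_of_le (by positivity)
      push_cast; linarith)
    (by
      intro n
      obtain ⟨ρ, hρ⟩ := near τ hτ n (1 / ((n:ℝ) + 1)) (by positivity)
      exact ⟨ρ, fun p hp => hρ p hp⟩)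
    ((hcl 0).isCompact) hcl
  obtain ⟨ρ, hρ⟩ := hne
  have hmom : ∀ p, ∫ x, (x:ℝ) ^ p ∂(ρ : Measure (Set.Icc (0:ℝ) 1)) = mom p τ := by
    intro p
    have h1 : ∀ n : ℕ, |∫ x, (x:ℝ) ^ p ∂(ρ : Measure (Set.Icc (0:ℝ) 1)) - mom p τ| ≤ 1 / (((n + p : ℕ) : ℝ) + 1) := by
      intro n
      have := Set.mem_iInter.1 hρ (n + p) p (by omega)
      exact this
    have h2 : Tendsto (fun n : ℕ => 1 / (((n + p : ℕ) : ℝ) + 1)) atTop (𝓝 0) :=
      (tendsto_one_div_add_atTop_nhds_zero_nat (𝕜 := ℝ)).comp (tendsto_add_atTop_nat p)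
    have h3 := ge_of_tendsto' h2 h1
    have := abs_nonpos_iff.1 h3
    linarith
  refine ⟨(ρ : Measure (Set.Icc (0:ℝ) 1)).map Subtype.val, ?_, ?_, ?_⟩
  · exact Measure.isProbabilityMeasure_map measurable_subtype_coe.aemeasurable
  · rw [Measure.map_apply measurable_subtype_coe measurableSet_Icc.compl]
    have : (Subtype.val : Set.Icc (0:ℝ) 1 → ℝ) ⁻¹' (Set.Icc 0 1)ᶜ = ∅ := by
      ext x; simp
    rw [this]; simp
  · intro p hp
    rw [integral_map measurable_subtype_coe.aemeasurable (by fun_prop), hmom p, mom, if_neg (by omega)]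

end Pool.Agent.X145.DL
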