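import Pool.Agent.X145.DL.Det

/-! Expectations over independent Haar unitaries. -/

set_option autoImplicit false
set_option linter.unusedSectionVars false

namespace Pool.Agent.X145.DL

open Finset Matrix MeasureTheory ProbabilityTheory Pool.Agent.H667R2.FG
open scoped ComplexOrder

instance scMat (N : ℕ) : SecondCountableTopology (Matrix (Fin N) (Fin N) ℂ) :=
  inferInstanceAs (SecondCountableTopology (Fin N → Fin N → ℂ))

instance scUU (N : ℕ) : SecondCountableTopology (UU N) := TopologicalSpace.Subtype.secondCountableTopology _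

/-- `S 0, S 1, …` are independent Haar distributed unitary matrices on `(Ω, μ)` -/
structure IIDHaar {Ω : Type*} [MeasurableSpace Ω] (μ : Measure Ω) (N : ℕ) (S : ℕ → Ω → UU N) : Prop where
  meas : ∀ i, Measurable (S i)
  indep : iIndepFun S μ
  law : ∀ i, μ.map (S i) = haarU N

variable {N : ℕ}

/-- extension of a finite family by `1` -/
def ext (L : ℕ) (t : range L → UU N) (i : ℕ) : UU N := if h : i ∈ range L then t ⟨i, h⟩ else 1

theorem ext_cont (L i : ℕ) : Continuous (fun t : range L → UU N => ext L t i) := by
  unfold ext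
  by_cases h : i ∈ range L
  · simp only [h, dif_pos]
    exact continuous_apply _
  · simp only [h, dif_neg, not_false_iff]
    exact continuous_const

theorem prodB_cont (P : Matrix (Fin N) (Fin N) ℂ) (L M : ℕ) :
    Continuous (fun t : range L → UU N => prodB P (ext L t) M) := by
  induction M with
  | zero => exact continuous_const
  | succ M ih =>
    have h1 : Continuous (fun t : range L → UU N => (ext L t M : Matrix (Fin N) (Fin N) ℂ)) :=
      continuous_subtype_val.comp (ext_cont L M)
    exact (continuous_const.mul h1).mul ih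

theorem CC_cont (P : Matrix (Fin N) (Fin N) ℂ) (L M : ℕ) :
    Continuous (fun t : range L → UU N => CC P (ext L t) M) := by
  unfold CC
  exact (prodB_cont P L M).mul (prodB_cont P L M).matrix_conjTranspose

theorem prodB_congr (P : Matrix (Fin N) (Fin N) ℂ) (s s' : ℕ → UU N) (L : ℕ) (h : ∀ i, i < L → s i = s' i) :
    prodB P s L = prodB P s' L := by
  induction L with
  | zero => rfl
  | succ L ih =>
    rw [prodB, prodB, h L (by omega), ih (fun i hi => h i (by omega))]

theorem CC_congr (P : Matrix (Fin N) (Fin N) ℂ) (s s' : ℕ → UU N) (L : ℕ) (h : ∀ i, i < L → s i = s' i) :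
    CC P s L = CC P s' L := by
  unfold CC
  rw [prodB_congr P s s' L h]

theorem mm_cont (a : ℕ) : Continuous (fun C : Matrix (Fin N) (Fin N) ℂ => mm C a) := by
  unfold mm
  exact ((continuous_id.pow a).matrix_trace).div_const _

theorem vec_cont' (u : Fin N → ℂ) : Continuous (fun s => vec u s) :=
  continuous_pi (fun i => vec_cont u i)

theorem qf_cont (u : Fin N → ℂ) (a : ℕ) :
    Continuous (fun x : Matrix (Fin N) (Fin N) ℂ × UU N => qf x.1 (vec u x.2) a) := by
  unfold qf
  have h1 : Continuous (fun x : Matrix (Fin N) (Fin N) ℂ × UU N => vec u x.2) := (vec_cont' u).comp continuous_snd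
  have h2 : Continuous (fun x : Matrix (Fin N) (Fin N) ℂ × UU N => x.1 ^ a) := continuous_fst.pow a
  exact Continuous.dotProduct h1.star (h2.matrix_mulVec h1)

section
variable {Ω : Type*} [MeasurableSpace Ω] (μ : Measure Ω) [IsProbabilityMeasure μ]

theorem indep_conc (hN : 0 < N) (P : Matrix (Fin N) (Fin N) ℂ) (hP : Pᴴ = P) (hPP : P * P = P)
    (u : Fin N → ℂ) (hu : star u ⬝ᵥ u = 1) (S : ℕ → Ω → UU N) (hS : IIDHaar μ N S) (L a : ℕ) :
    ∫ ω, ‖qf (CC P (fun i => S i ω) L) (vec u (S L ω)) a - mm (CC P (fun i => S i ω) L) a‖ ∂μ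
      ≤ 1 / Real.sqrt N := by
  set T : Ω → (range L → UU N) := fun ω i => S i ω with hT
  have hTm : Measurable T := measurable_pi_lambda _ (fun i => hS.meas i)
  have hind : IndepFun T (S L) μ := by
    have h1 := hS.indep.indepFun_finset (range L) {L} (by simp) hS.meas
    have hψ : Measurable (fun g : (({L} : Finset ℕ) → UU N) => g ⟨L, by simp⟩) :=
      measurable_pi_apply _
    exact h1.comp (φ := id) (ψ := fun g : (({L} : Finset ℕ) → UU N) => g ⟨L, by simp⟩) measurable_id hψ
  have hmap := (indepFun_iff_map_prod_eq_prod_map_map hTm.aemeasurable (hS.meas L).aemeasurable).1 hind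
  rw [hS.law L] at hmap
  set F : (range L → UU N) × UU N → ℝ := fun x => ‖qf (CC P (ext L x.1) L) (vec u x.2) a - mm (CC P (ext L x.1) L) a‖ with hF
  have hFc : Continuous F := by
    have c1 : Continuous (fun x : (range L → UU N) × UU N => CC P (ext L x.1) L) :=
      (CC_cont P L L).comp continuous_fst
    have c2 : Continuous (fun x : (range L → UU N) × UU N => (CC P (ext L x.1) L, x.2)) :=
      c1.prodMk continuous_snd
    exact (((qf_cont u a).comp c2).sub ((mm_cont a).comp c1)).norm
  have hcomp : ∀ ω, ‖qf (CC P (fun i => S i ω) L) (vec u (S L ω)) a - mm (CC P (fun i => S i ω) L) a‖ = F (T ω, S L ω) := by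
    intro ω
    have : CC P (fun i => S i ω) L = CC P (ext L (T ω)) L := by
      apply CC_congr
      intro i hi
      simp [ext, hi, hT]
    rw [hF]
    simp only [this]
  have hprob : IsProbabilityMeasure (μ.map T) := Measure.isProbabilityMeasure_map hTm.aemeasurable
  have hFb : ∀ x, ‖F x‖ ≤ 2 := by
    intro x
    have hc := contr_CC P hP hPP (ext L x.1) L
    rw [hF]
    simp only [norm_norm]
    refine (norm_sub_le _ _).trans ?_
    have h1 := qf_norm _ hc (vec u x.2) (vec_norm u hu x.2) a
    have h2 := mm_norm hN _ hc a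
    linarith
  have hFi : Integrable F ((μ.map T).prod (haarU N)) :=
    Integrable.of_bound hFc.aestronglyMeasurable 2 (Filter.Eventually.of_forall hFb)
  calc ∫ ω, ‖qf (CC P (fun i => S i ω) L) (vec u (S L ω)) a - mm (CC P (fun i => S i ω) L) a‖ ∂μ
      = ∫ ω, F (T ω, S L ω) ∂μ := by simp only [hcomp]
    _ = ∫ x, F x ∂((μ.map T).prod (haarU N)) := by
        rw [← hmap, integral_map (hTm.prodMk (hS.meas L)).aemeasurable hFc.aestronglyMeasurable]
    _ = ∫ t, ∫ s, F (t, s) ∂(haarU N) ∂(μ.map T) := integral_prod _ hFi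
    _ ≤ ∫ _t, 1 / Real.sqrt N ∂(μ.map T) := by
        apply integral_mono hFi.integral_prod_left (integrable_const _)
        intro t
        exact conc u hN hu _ (contr_CC P hP hPP (ext L t) L) a
    _ = 1 / Real.sqrt N := by simp

theorem CC_meas (P : Matrix (Fin N) (Fin N) ℂ) (S : ℕ → Ω → UU N) (hS : ∀ i, Measurable (S i)) (L a : ℕ) :
    Measurable (fun ω => mm (CC P (fun i => S i ω) L) a) := by
  have hTm : Measurable (fun ω => (fun i => S i ω : range L → UU N)) := measurable_pi_lambda _ (fun i => hS i)
  have h1 : Measurable (fun t : range L → UU N => mm (CC P (ext L t) L) a) :=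
    ((mm_cont a).comp (CC_cont P L L)).measurable
  have h2 := h1.comp hTm
  convert h2 using 1
  funext ω
  simp only [Function.comp]
  congr 1
  apply CC_congr
  intro i hi
  simp [ext, hi]

theorem qf_meas (P : Matrix (Fin N) (Fin N) ℂ) (u : Fin N → ℂ) (S : ℕ → Ω → UU N) (hS : ∀ i, Measurable (S i)) (L a : ℕ) :
    Measurable (fun ω => qf (CC P (fun i => S i ω) L) (vec u (S L ω)) a) := by
  have hTm : Measurable (fun ω => (fun i => S i ω : range L → UU N)) := measurable_pi_lambda _ (fun i => hS i)
  have h1 : Measurable (fun x : (range L → UU N) × UU N => qf (CC P (ext L x.1) L) (vec u x.2) a) := by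
    have c1 : Continuous (fun x : (range L → UU N) × UU N => CC P (ext L x.1) L) :=
      (CC_cont P L L).comp continuous_fst
    have c2 : Continuous (fun x : (range L → UU N) × UU N => (CC P (ext L x.1) L, x.2)) :=
      c1.prodMk continuous_snd
    exact ((qf_cont u a).comp c2).measurable
  have h2 := h1.comp (hTm.prodMk (hS L))
  convert h2 using 1
  funext ω
  simp only [Function.comp]
  congr 1
  apply CC_congr
  intro i hi
  simp [ext, hi]

end

end Pool.Agent.X145.DL
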