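import Pool.Agent.X145.DL.Limit

/-! Weak convergence in probability; the limiting law. -/

set_option autoImplicit false
set_option linter.unusedSectionVars false

namespace Pool.Agent.X145.DL

open Finset Matrix MeasureTheory ProbabilityTheory Pool.Agent.H667R2.FG Filter Topology
open scoped ComplexOrder

/-- `ν` is the law `μ_τ` -/
structure IsMu (τ : ℝ) (ν : Measure ℝ) : Prop where
  prob : IsProbabilityMeasure ν
  supp : ν (Set.Icc 0 1)ᶜ = 0
  moments : ∀ p : ℕ, 1 ≤ p → ∫ x, x ^ p ∂ν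
    = Real.exp (-(p * τ)) * ∑ k ∈ range p, (1 - (k:ℝ) / p) * (p * τ) ^ k / (k.factorial : ℝ)

theorem IsMu.mom {τ : ℝ} {ν : Measure ℝ} (h : IsMu τ ν) (p : ℕ) : ∫ x, x ^ p ∂ν = DL.mom p τ := by
  have := h.prob
  rcases Nat.eq_zero_or_pos p with rfl | hp
  · simp [DL.mom]
  · rw [h.moments p hp, DL.mom, if_neg (by omega)]

theorem IsMu.ae {τ : ℝ} {ν : Measure ℝ} (h : IsMu τ ν) : ∀ᵐ x ∂ν, x ∈ Set.Icc (0:ℝ) 1 := by
  rw [ae_iff]; exact h.supp

/-- a continuous function on `ℝ` is integrable for a law on `[0,1]` -/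
theorem int_cont {ν : Measure ℝ} [IsFiniteMeasure ν] (hs : ∀ᵐ x ∂ν, x ∈ Set.Icc (0:ℝ) 1) {f : ℝ → ℝ}
    (hf : Continuous f) : Integrable f ν := by
  obtain ⟨C, hC⟩ := (isCompact_Icc (a := (0:ℝ)) (b := 1)).exists_bound_of_continuousOn hf.continuousOn
  refine Integrable.of_bound hf.aestronglyMeasurable C ?_
  filter_upwards [hs] with x hx
  exact hC x hx

theorem int_poly {τ : ℝ} {ν : Measure ℝ} (h : IsMu τ ν) (q : Polynomial ℝ) :
    ∫ x, q.eval x ∂ν = ∑ j ∈ range (q.natDegree + 1), q.coeff j * DL.mom j τ := by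
  have := h.prob
  have hs := h.ae
  have e : ∀ x, q.eval x = ∑ j ∈ range (q.natDegree + 1), q.coeff j * x ^ j := fun x => Polynomial.eval_eq_sum_range x
  rw [integral_congr_ae (Filter.Eventually.of_forall e),
    integral_finsetSum _ (fun j _ => int_cont hs (by fun_prop))]
  apply sum_congr rfl
  intro j _
  rw [integral_const_mul, h.mom]

/-- the squared singular values of `B` -/
noncomputable def sv {N : ℕ} (B : Matrix (Fin N) (Fin N) ℂ) (k : Fin N) : ℝ :=
  (isHermitian_conjTranspose_mul_self B).eigenvalues k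

theorem contr_BB {N : ℕ} (P : Matrix (Fin N) (Fin N) ℂ) (hP : Pᴴ = P) (hPP : P * P = P) (s : ℕ → UU N) (L : ℕ) :
    Contr ((prodB P s L)ᴴ * prodB P s L) := by
  induction L with
  | zero =>
    have : (prodB P s 0)ᴴ * prodB P s 0 = 1 := by simp [prodB]
    rw [this]; exact contr_one
  | succ L ih =>
    refine ⟨posSemidef_conjTranspose_mul_self _, ?_⟩
    set B := prodB P s L with hB
    set S : Matrix (Fin N) (Fin N) ℂ := (s L : Matrix (Fin N) (Fin N) ℂ) with hS
    have hss : Sᴴ * S = 1 := (mem_unitaryGroup_iff' (A := S)).1 (s L).2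
    have e0 : prodB P s (L + 1) = (P * S) * B := rfl
    have e1 : 1 - ((P * S) * B)ᴴ * ((P * S) * B) = (1 - Bᴴ * B) + ((1 - P) * S * B)ᴴ * ((1 - P) * S * B) := by
      have a1 : ((P * S) * B)ᴴ * ((P * S) * B) = Bᴴ * (Sᴴ * (P * P) * S) * B := by
        rw [conjTranspose_mul, conjTranspose_mul, hP]; simp only [mul_assoc]
      have a2 : ((1 - P) * S * B)ᴴ * ((1 - P) * S * B) = Bᴴ * (Sᴴ * ((1 - P) * (1 - P)) * S) * B := by
        rw [conjTranspose_mul, conjTranspose_mul, conjTranspose_sub, conjTranspose_one, hP]; simp only [mul_assoc]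
      have a3 : (1 - P) * (1 - P) = 1 - P := by
        rw [mul_sub, mul_one, sub_mul, one_mul, hPP]; abel
      rw [a1, a2, a3, hPP, mul_sub, sub_mul, mul_one, hss, mul_sub, sub_mul, mul_one]
      abel
    rw [e0, e1]
    exact ih.le.add (posSemidef_conjTranspose_mul_self _)

theorem sv_mem {N : ℕ} (P : Matrix (Fin N) (Fin N) ℂ) (hP : Pᴴ = P) (hPP : P * P = P) (s : ℕ → UU N) (L : ℕ)
    (k : Fin N) : sv (prodB P s L) k ∈ Set.Icc (0:ℝ) 1 :=
  ⟨eig_nonneg _ (contr_BB P hP hPP s L) k, eig_le _ (contr_BB P hP hPP s L) k⟩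

theorem sv_mom {N : ℕ} (P : Matrix (Fin N) (Fin N) ℂ) (s : ℕ → UU N) (L p : ℕ) :
    mm (CC P s L) p = (((∑ k, sv (prodB P s L) k ^ p) / N : ℝ) : ℂ) := by
  unfold mm CC sv
  rw [trace_pow_comm, tr_spec _ (isHermitian_conjTranspose_mul_self (prodB P s L))]
  push_cast; rfl

/-- the empirical average of `f` over the squared singular values -/
noncomputable def emp {N : ℕ} (B : Matrix (Fin N) (Fin N) ℂ) (f : ℝ → ℝ) : ℝ := (∑ k, f (sv B k)) / N

theorem emp_poly {N : ℕ} (P : Matrix (Fin N) (Fin N) ℂ) (s : ℕ → UU N) (L : ℕ) (q : Polynomial ℝ) (τ : ℝ) :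
    |emp (prodB P s L) (fun x => q.eval x) - ∑ j ∈ range (q.natDegree + 1), q.coeff j * mom j τ|
      ≤ ∑ j ∈ range (q.natDegree + 1), |q.coeff j| * ‖mm (CC P s L) j - mc τ j‖ := by
  have e : emp (prodB P s L) (fun x => q.eval x)
      = ∑ j ∈ range (q.natDegree + 1), q.coeff j * ((∑ k, sv (prodB P s L) k ^ j) / N) := by
    unfold emp
    simp only [Polynomial.eval_eq_sum_range]
    rw [sum_comm, sum_div]
    apply sum_congr rfl
    intro j _
    rw [← mul_sum]; ring
  rw [e, ← sum_sub_distrib]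
  refine (abs_sum_le_sum_abs _ _).trans (sum_le_sum ?_)
  intro j _
  rw [← mul_sub, abs_mul, sv_mom]
  unfold mc
  rw [← Complex.ofReal_sub, Complex.norm_real, Real.norm_eq_abs]

section
variable {Ω : ℕ → Type*} [∀ N, MeasurableSpace (Ω N)] {μ : ∀ N, Measure (Ω N)}
  {P : ∀ N, Matrix (Fin N) (Fin N) ℂ} {S : ∀ N, ℕ → Ω N → UU N}

theorem conv_prob (h : ∀ N, 2 ≤ N → Model N (μ N) (P N) (S N)) {L : ℕ → ℕ} {τ : ℝ} (hτ : 0 < τ)
    (hL : Tendsto (fun N => (L N : ℝ) / N) atTop (𝓝 τ)) {ν : Measure ℝ} (hν : IsMu τ ν)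
    (f : ℝ → ℝ) (hf : ContinuousOn f (Set.Icc 0 1)) (ε : ℝ) (hε : 0 < ε) :
    Tendsto (fun N => μ N {ω | ε < |emp (prodB (P N) (fun i => S N i ω) (L N)) f - ∫ x, f x ∂ν|}) atTop (𝓝 0) := by
  have := hν.prob
  have hs := hν.ae
  obtain ⟨q, hq⟩ := exists_polynomial_near_of_continuousOn 0 1 f hf (ε / 4) (by positivity)
  -- the integral
  have hfint : Integrable f ν := by
    obtain ⟨C, hC⟩ := (isCompact_Icc (a := (0:ℝ)) (b := 1)).exists_bound_of_continuousOn hf
    have hres : ν.restrict (Set.Icc 0 1) = ν := Measure.restrict_eq_self_of_ae_mem hs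
    have hm : AEStronglyMeasurable f ν := by
      rw [← hres]; exact hf.aestronglyMeasurable measurableSet_Icc
    refine Integrable.of_bound hm C ?_
    filter_upwards [hs] with x hx
    exact hC x hx
  have hqint : Integrable (fun x => q.eval x) ν := int_cont hs (by fun_prop)
  have hI : |∫ x, q.eval x ∂ν - ∫ x, f x ∂ν| ≤ ε / 4 := by
    rw [← integral_sub hqint hfint]
    have := norm_integral_le_of_norm_le_const (μ := ν) (f := fun x => q.eval x - f x) (C := ε / 4) (by
      filter_upwards [hs] with x hx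
      exact (hq x hx).le)
    simpa [Real.norm_eq_abs] using this
  set G : ∀ N, Ω N → ℝ := fun N ω => ∑ j ∈ range (q.natDegree + 1), |q.coeff j| *
    ‖mm (CC (P N) (fun i => S N i ω) (L N)) j - mc τ j‖ with hG
  have hEG : Tendsto (fun N => ∑ j ∈ range (q.natDegree + 1), |q.coeff j| * dev (μ N) (P N) (S N) τ (L N) j) atTop (𝓝 0) := by
    have : Tendsto (fun N => ∑ j ∈ range (q.natDegree + 1), |q.coeff j| * dev (μ N) (P N) (S N) τ (L N) j) atTop
        (𝓝 (∑ j ∈ range (q.natDegree + 1), |q.coeff j| * 0)) :=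
      tendsto_finsetSum _ (fun j _ => (dev_tendsto h hτ hL j).const_mul _)
    simpa using this
  have hEG2 : Tendsto (fun N => ENNReal.ofReal ((∑ j ∈ range (q.natDegree + 1), |q.coeff j| * dev (μ N) (P N) (S N) τ (L N) j) / (ε / 4)))
      atTop (𝓝 0) := by
    have := ENNReal.tendsto_ofReal (hEG.div_const (ε / 4))
    simpa using this
  refine tendsto_of_tendsto_of_tendsto_of_le_of_le' tendsto_const_nhds hEG2 (Filter.Eventually.of_forall (fun _ => zero_le)) ?_
  filter_upwards [eventually_ge_atTop 2] with N hN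
  have hM := h N hN
  have := hM.prob
  have hN0 : (0:ℝ) < N := by exact_mod_cast (show 0 < N by omega)
  have hsub : {ω | ε < |emp (prodB (P N) (fun i => S N i ω) (L N)) f - ∫ x, f x ∂ν|} ⊆ {ω | ε / 4 ≤ G N ω} := by
    intro ω hω
    simp only [Set.mem_ofPred_eq] at hω ⊢
    by_contra hlt
    push Not at hlt
    have h1 : |emp (prodB (P N) (fun i => S N i ω) (L N)) f - emp (prodB (P N) (fun i => S N i ω) (L N)) (fun x => q.eval x)| ≤ ε / 4 := by
      unfold emp
      rw [← sub_div, ← sum_sub_distrib, abs_div, abs_of_pos hN0, div_le_iff₀ hN0]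
      calc _ ≤ ∑ k, |f (sv (prodB (P N) (fun i => S N i ω) (L N)) k) - q.eval (sv (prodB (P N) (fun i => S N i ω) (L N)) k)| :=
            abs_sum_le_sum_abs _ _
        _ ≤ ∑ _k : Fin N, ε / 4 := by
            apply sum_le_sum
            intro k _
            rw [abs_sub_comm]
            exact (hq _ (sv_mem (P N) hM.herm hM.idem _ (L N) k)).le
        _ = ε / 4 * N := by simp; ring
    have h2 := emp_poly (P N) (fun i => S N i ω) (L N) q τ
    rw [← int_poly hν] at h2
    have h3 : |emp (prodB (P N) (fun i => S N i ω) (L N)) f - ∫ x, f x ∂ν| ≤ ε / 4 + ε / 4 + ε / 4 := by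
      have e : emp (prodB (P N) (fun i => S N i ω) (L N)) f - ∫ x, f x ∂ν
          = (emp (prodB (P N) (fun i => S N i ω) (L N)) f - emp (prodB (P N) (fun i => S N i ω) (L N)) (fun x => q.eval x))
          + (emp (prodB (P N) (fun i => S N i ω) (L N)) (fun x => q.eval x) - ∫ x, q.eval x ∂ν)
          + (∫ x, q.eval x ∂ν - ∫ x, f x ∂ν) := by ring
      rw [e]
      refine (abs_add_three _ _ _).trans ?_
      exact add_le_add (add_le_add h1 (h2.trans hlt.le)) hI
    linarith
  have hGi : Integrable (G N) (μ N) :=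
    integrable_finsetSum _ (fun j _ => (dev_int (by omega) hM τ hτ.le (L N) j).const_mul _)
  have hGnn : 0 ≤ᵐ[μ N] G N := Filter.Eventually.of_forall (fun ω => sum_nonneg (fun j _ => by positivity))
  have hmk := mul_meas_ge_le_integral_of_nonneg hGnn hGi (ε / 4)
  have hGe : ∫ ω, G N ω ∂(μ N) = ∑ j ∈ range (q.natDegree + 1), |q.coeff j| * dev (μ N) (P N) (S N) τ (L N) j := by
    rw [hG]
    rw [integral_finsetSum _ (fun j _ => (dev_int (by omega) hM τ hτ.le (L N) j).const_mul _)]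
    apply sum_congr rfl
    intro j _
    rw [integral_const_mul]; rfl
  rw [hGe] at hmk
  refine (measure_mono hsub).trans ?_
  rw [← ENNReal.ofReal_toReal (measure_ne_top (μ N) {ω | ε / 4 ≤ G N ω})]
  apply ENNReal.ofReal_le_ofReal
  rw [le_div_iff₀ (by positivity), mul_comm]
  exact hmk

end

end Pool.Agent.X145.DL
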