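import Pool.Agent.X145.DL.Alg
import Pool.Agent.H667R2.FG.Basic

/-! Second moments of quadratic forms in a Haar random unit vector. -/

set_option autoImplicit false
set_option linter.unusedSectionVars false

namespace Pool.Agent.X145.DL

open Finset Matrix MeasureTheory Pool.Agent.H667R2.FG
open scoped ComplexOrder

variable {N : ℕ} (u : Fin N → ℂ)

/-- the random vector `s† u` -/
def vec (s : UU N) : Fin N → ℂ := (s : Matrix (Fin N) (Fin N) ℂ)ᴴ *ᵥ u

/-- its coefficient along `a` -/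
def W (a : Fin N → ℂ) (s : UU N) : ℂ := star a ⬝ᵥ vec u s

theorem W_cont (a : Fin N → ℂ) : Continuous (W u a) := by
  unfold W vec
  have h1 : Continuous (fun s : UU N => (s : Matrix (Fin N) (Fin N) ℂ)ᴴ) :=
    continuous_subtype_val.matrix_conjTranspose
  exact Continuous.dotProduct continuous_const (h1.matrix_mulVec continuous_const)

theorem integ {f : UU N → ℝ} (hf : Continuous f) : Integrable f (haarU N) :=
  hf.integrable_of_hasCompactSupport (HasCompactSupport.of_compactSpace _)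

theorem W_mul (a : Fin N → ℂ) (s g : UU N) :
    W u a (s * g) = W u ((g : Matrix (Fin N) (Fin N) ℂ) *ᵥ a) s := by
  unfold W vec
  have h1 : ((s * g : UU N) : Matrix (Fin N) (Fin N) ℂ) = (s : Matrix (Fin N) (Fin N) ℂ) * (g : Matrix (Fin N) (Fin N) ℂ) := rfl
  rw [h1, conjTranspose_mul, ← mulVec_mulVec, dotProduct_mulVec, star_mulVec]

theorem inv_int (F : ℂ → ℂ → ℝ) (a b : Fin N → ℂ) (g : UU N) :
    ∫ s, F (W u ((g : Matrix (Fin N) (Fin N) ℂ) *ᵥ a) s) (W u ((g : Matrix (Fin N) (Fin N) ℂ) *ᵥ b) s) ∂(haarU N)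
      = ∫ s, F (W u a s) (W u b s) ∂(haarU N) := by
  have := integral_mul_right_eq_self (μ := haarU N) (fun s => F (W u a s) (W u b s)) g
  rw [← this]
  congr 1
  funext s
  rw [W_mul, W_mul]

/-- reflections act transitively -/
theorem exists_reflection (a b : Fin N → ℂ) (ha : star a ⬝ᵥ a = 1) (hb : star b ⬝ᵥ b = 1) (r : ℝ)
    (hab : star a ⬝ᵥ b = r) : ∃ g : UU N, (g : Matrix (Fin N) (Fin N) ℂ) *ᵥ a = b := by
  by_cases hne : a = b
  · refine ⟨1, ?_⟩
    rw [hne]; simp
  have hba : star b ⬝ᵥ a = r := by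
    have h1 := congrArg star hab
    rw [← star_dotProduct_star, star_star] at h1
    have : star (r:ℂ) = r := Complex.conj_ofReal r
    rw [this] at h1
    exact h1
  set z : Fin N → ℂ := a - b with hz
  have hzz : star z ⬝ᵥ z = ((2 - 2 * r : ℝ) : ℂ) := by
    rw [hz, star_sub, sub_dotProduct, dotProduct_sub, dotProduct_sub, ha, hb, hab, hba]
    push_cast; ring
  have hz0 : star z ⬝ᵥ z ≠ 0 := by
    rw [ne_eq, dotProduct_star_self_eq_zero]
    exact sub_ne_zero.2 hne
  have hr : (2 - 2 * r : ℝ) ≠ 0 := by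
    intro h
    apply hz0
    rw [hzz, h]; simp
  have hza : star z ⬝ᵥ a = ((1 - r : ℝ) : ℂ) := by
    rw [hz, star_sub, sub_dotProduct, ha, hba]
    push_cast; ring
  set c : ℂ := ((2 / (2 - 2 * r) : ℝ) : ℂ) with hc
  set g : Matrix (Fin N) (Fin N) ℂ := 1 - c • vecMulVec z (star z) with hg
  have hgs : gᴴ = g := by
    rw [hg, conjTranspose_sub, conjTranspose_one, conjTranspose_smul, conjTranspose_vecMulVec, star_star]
    have : star c = c := Complex.conj_ofReal _
    rw [this]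
  have hvv : vecMulVec z (star z) * vecMulVec z (star z) = (star z ⬝ᵥ z) • vecMulVec z (star z) := by
    ext i j
    simp only [Matrix.mul_apply, vecMulVec_apply, Matrix.smul_apply, dotProduct, smul_eq_mul]
    rw [Finset.sum_mul]
    apply sum_congr rfl
    intro k _
    ring
  have hgg : g * g = 1 := by
    have h1 : g * g = 1 - (2 * c) • vecMulVec z (star z) + (c * c) • (vecMulVec z (star z) * vecMulVec z (star z)) := by
      rw [hg]
      simp only [sub_mul, mul_sub, one_mul, mul_one, Matrix.smul_mul, Matrix.mul_smul, smul_smul, two_mul, add_smul]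
      abel
    rw [h1, hvv, smul_smul, hzz]
    have h2 : c * c * ((2 - 2 * r : ℝ) : ℂ) = 2 * c := by
      rw [hc]
      have : (2 / (2 - 2 * r)) * (2 / (2 - 2 * r)) * (2 - 2 * r) = 2 * (2 / (2 - 2 * r)) := by
        field_simp
      exact_mod_cast this
    rw [h2]; simp
  refine ⟨⟨g, ?_⟩, ?_⟩
  · rw [mem_unitaryGroup_iff]
    show g * gᴴ = 1
    rw [hgs, hgg]
  · show g *ᵥ a = b
    rw [hg, sub_mulVec, one_mulVec, smul_mulVec, vmv, hza, smul_smul]
    have h3 : c * ((1 - r : ℝ) : ℂ) = 1 := by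
      rw [hc]
      have : (2 / (2 - 2 * r)) * (1 - r) = 1 := by
        have h1r : (1 - r : ℝ) ≠ 0 := by
          intro h; apply hr; linarith
        rw [div_mul_eq_mul_div, div_eq_one_iff_eq hr]; ring
      exact_mod_cast this
    rw [h3, one_smul, hz]
    abel

theorem E4_eq (a b : Fin N → ℂ) (ha : star a ⬝ᵥ a = 1) (hb : star b ⬝ᵥ b = 1) (r : ℝ)
    (hab : star a ⬝ᵥ b = r) (k : ℕ) :
    ∫ s, ‖W u b s‖ ^ k ∂(haarU N) = ∫ s, ‖W u a s‖ ^ k ∂(haarU N) := by
  obtain ⟨g, hg⟩ := exists_reflection a b ha hb r hab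
  have := inv_int u (fun x _ => ‖x‖ ^ k) a a g
  simp only [hg] at this
  exact this

theorem four_sum (A B : ℂ) :
    ‖A + B‖ ^ 4 + ‖A - B‖ ^ 4 + ‖A + Complex.I * B‖ ^ 4 + ‖A - Complex.I * B‖ ^ 4
      = 4 * (‖A‖ ^ 2 + ‖B‖ ^ 2) ^ 2 + 8 * (‖A‖ ^ 2 * ‖B‖ ^ 2) := by
  have e : ∀ z : ℂ, ‖z‖ ^ 4 = (Complex.normSq z) ^ 2 := by
    intro z; rw [Complex.normSq_eq_norm_sq]; ring
  have e2 : ∀ z : ℂ, ‖z‖ ^ 2 = Complex.normSq z := fun z => (Complex.normSq_eq_norm_sq z).symm
  rw [e, e, e, e, e2, e2]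
  simp only [Complex.normSq_apply, Complex.add_re, Complex.add_im, Complex.sub_re, Complex.sub_im,
    Complex.mul_re, Complex.mul_im, Complex.I_re, Complex.I_im]
  ring

end Pool.Agent.X145.DL
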