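import Pool.Agent.X145.DL.Haar

/-! Concentration of quadratic forms in a Haar random unit vector. -/

set_option autoImplicit false
set_option linter.unusedSectionVars false

namespace Pool.Agent.X145.DL

open Finset Matrix MeasureTheory Pool.Agent.H667R2.FG
open scoped ComplexOrder

variable {N : ℕ} (u : Fin N → ℂ)

theorem vec_norm (hu : star u ⬝ᵥ u = 1) (s : UU N) : star (vec u s) ⬝ᵥ vec u s = 1 := by
  unfold vec
  rw [star_mulVec, conjTranspose_conjTranspose, ← dotProduct_mulVec, mulVec_mulVec]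
  have : (s : Matrix (Fin N) (Fin N) ℂ) * (s : Matrix (Fin N) (Fin N) ℂ)ᴴ = 1 :=
    (mem_unitaryGroup_iff (A := (s : Matrix (Fin N) (Fin N) ℂ))).1 s.2
  rw [this, one_mulVec, hu]

theorem W_single (i : Fin N) (s : UU N) : W u (Pi.single i 1) s = vec u s i := by
  unfold W
  have : star (Pi.single i (1:ℂ) : Fin N → ℂ) = Pi.single i 1 := by
    funext j
    by_cases h : j = i
    · subst h; simp
    · simp [h]
  rw [this, single_dotProduct, one_mul]

theorem vec_cont (i : Fin N) : Continuous (fun s => vec u s i) := by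
  have h := W_cont u (Pi.single i 1)
  have e : W u (Pi.single i 1) = fun s => vec u s i := by
    funext s; exact W_single u i s
  rwa [e] at h

theorem self_dot (v : Fin N → ℂ) : star v ⬝ᵥ v = ((∑ i, ‖v i‖ ^ 2 : ℝ) : ℂ) := by
  unfold dotProduct
  push_cast
  apply sum_congr rfl
  intro i _
  rw [Pi.star_apply, Complex.star_def, ← Complex.normSq_eq_conj_mul_self, Complex.normSq_eq_norm_sq]
  push_cast; rfl

theorem sum_sq {v : Fin N → ℂ} (hv : star v ⬝ᵥ v = 1) : ∑ i, ‖v i‖ ^ 2 = 1 := by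
  rw [self_dot] at hv
  exact_mod_cast hv

theorem single_unit (i : Fin N) : star (Pi.single i (1:ℂ) : Fin N → ℂ) ⬝ᵥ (Pi.single i 1) = 1 := by
  rw [dotProduct_single]; simp

theorem pow_eq (i j : Fin N) (k : ℕ) :
    ∫ s, ‖vec u s i‖ ^ k ∂(haarU N) = ∫ s, ‖vec u s j‖ ^ k ∂(haarU N) := by
  by_cases hij : i = j
  · rw [hij]
  have h := E4_eq u (Pi.single j 1) (Pi.single i 1) (single_unit j) (single_unit i) 0
    (by rw [dotProduct_single]; simp [hij]) k
  simpa only [W_single] using h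

/-- the unit vector `(e_i + z e_j)/√2` -/
theorem comb_unit (i j : Fin N) (hij : i ≠ j) (z : ℂ) (hz : star z * z = 1) :
    ∫ s, ‖vec u s i + star z * vec u s j‖ ^ 4 ∂(haarU N) = 4 * ∫ s, ‖vec u s i‖ ^ 4 ∂(haarU N) := by
  set r : ℝ := (Real.sqrt 2)⁻¹ with hr
  have hr2 : r * r = 1 / 2 := by
    rw [hr, ← mul_inv, Real.mul_self_sqrt (by norm_num)]; norm_num
  have hrc : (r : ℂ) * r = 1 / 2 := by
    have := congrArg (fun x : ℝ => (x : ℂ)) hr2
    simpa using this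
  have hsr : star (r : ℂ) = r := Complex.conj_ofReal r
  set b : Fin N → ℂ := (r : ℂ) • Pi.single i 1 + ((r : ℂ) * z) • Pi.single j 1 with hb
  have hss : ∀ k : Fin N, star (Pi.single k (1:ℂ) : Fin N → ℂ) = Pi.single k 1 := by
    intro k
    funext l
    by_cases h : l = k
    · subst h; simp
    · simp [h]
  have hsb : star b = (r : ℂ) • Pi.single i 1 + ((r : ℂ) * star z) • Pi.single j 1 := by
    rw [hb, star_add, star_smul, star_smul, hss, hss, hsr, star_mul, hsr, mul_comm (star z)]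
  have hbb : star b ⬝ᵥ b = 1 := by
    rw [hsb, hb]
    simp only [add_dotProduct, dotProduct_add, smul_dotProduct, dotProduct_smul, single_dotProduct,
      Pi.single_eq_same, smul_eq_mul, Pi.single_eq_of_ne hij, Pi.single_eq_of_ne hij.symm]
    linear_combination (1 + star z * z) * hrc + (1/2) * hz
  have hab : star (Pi.single i (1:ℂ) : Fin N → ℂ) ⬝ᵥ b = (r : ℂ) := by
    rw [hss, hb]
    simp only [dotProduct_add, dotProduct_smul, single_dotProduct,
      Pi.single_eq_same, smul_eq_mul, Pi.single_eq_of_ne hij]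
    ring
  have h := E4_eq u (Pi.single i 1) b (single_unit i) hbb r hab 4
  have hW : ∀ s, ‖W u b s‖ ^ 4 = (1/4) * ‖vec u s i + star z * vec u s j‖ ^ 4 := by
    intro s
    have e : W u b s = (r : ℂ) * (vec u s i + star z * vec u s j) := by
      unfold W
      rw [hsb]
      simp only [add_dotProduct, smul_dotProduct, single_dotProduct, smul_eq_mul, one_mul]
      ring
    rw [e, norm_mul, mul_pow]
    congr 1
    rw [Complex.norm_real, Real.norm_eq_abs]
    have : |r| ^ 4 = (r * r) ^ 2 := by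
      rw [show (4:ℕ) = 2 * 2 by norm_num, pow_mul, sq_abs]; ring
    rw [this, hr2]; norm_num
  simp only [hW, W_single] at h
  rw [integral_const_mul] at h
  linarith

theorem cross (i j : Fin N) (hij : i ≠ j) :
    ∫ s, ‖vec u s i‖ ^ 4 ∂(haarU N) = 2 * ∫ s, ‖vec u s i‖ ^ 2 * ‖vec u s j‖ ^ 2 ∂(haarU N) := by
  have ci := vec_cont u i
  have cj := vec_cont u j
  have h1 := comb_unit u i j hij 1 (by simp)
  have h2 := comb_unit u i j hij (-1) (by simp)
  have h3 := comb_unit u i j hij (-Complex.I) (by simp)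
  have h4 := comb_unit u i j hij Complex.I (by simp)
  simp only [star_one, one_mul, star_neg, neg_mul, ← sub_eq_add_neg] at h1 h2 h3 h4
  have hI : star Complex.I = -Complex.I := Complex.conj_I
  simp only [hI, neg_mul, ← sub_eq_add_neg, sub_neg_eq_add] at h3 h4
  have hs : ∫ s, (‖vec u s i + vec u s j‖ ^ 4 + ‖vec u s i - vec u s j‖ ^ 4
      + ‖vec u s i + Complex.I * vec u s j‖ ^ 4 + ‖vec u s i - Complex.I * vec u s j‖ ^ 4) ∂(haarU N)
      = ∫ s, (4 * ‖vec u s i‖ ^ 4 + 4 * ‖vec u s j‖ ^ 4 + 16 * (‖vec u s i‖ ^ 2 * ‖vec u s j‖ ^ 2)) ∂(haarU N) := by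
    congr 1
    funext s
    rw [four_sum]
    ring
  have i1 : Integrable (fun s => ‖vec u s i + vec u s j‖ ^ 4) (haarU N) := integ (by fun_prop)
  have i2 : Integrable (fun s => ‖vec u s i - vec u s j‖ ^ 4) (haarU N) := integ (by fun_prop)
  have i3 : Integrable (fun s => ‖vec u s i + Complex.I * vec u s j‖ ^ 4) (haarU N) := integ (by fun_prop)
  have i4 : Integrable (fun s => ‖vec u s i - Complex.I * vec u s j‖ ^ 4) (haarU N) := integ (by fun_prop)
  have j1 : Integrable (fun s => 4 * ‖vec u s i‖ ^ 4) (haarU N) := integ (by fun_prop)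
  have j2 : Integrable (fun s => 4 * ‖vec u s j‖ ^ 4) (haarU N) := integ (by fun_prop)
  have j3 : Integrable (fun s => 16 * (‖vec u s i‖ ^ 2 * ‖vec u s j‖ ^ 2)) (haarU N) := integ (by fun_prop)
  have i12 : Integrable (fun s => ‖vec u s i + vec u s j‖ ^ 4 + ‖vec u s i - vec u s j‖ ^ 4) (haarU N) :=
    integ (by fun_prop)
  have i123 : Integrable (fun s => ‖vec u s i + vec u s j‖ ^ 4 + ‖vec u s i - vec u s j‖ ^ 4
      + ‖vec u s i + Complex.I * vec u s j‖ ^ 4) (haarU N) := integ (by fun_prop)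
  have j12 : Integrable (fun s => 4 * ‖vec u s i‖ ^ 4 + 4 * ‖vec u s j‖ ^ 4) (haarU N) := integ (by fun_prop)
  rw [integral_add i123 i4, integral_add i12 i3, integral_add i1 i2,
    integral_add j12 j3, integral_add j1 j2, integral_const_mul, integral_const_mul,
    integral_const_mul, h1, h2, h3, h4, pow_eq u j i] at hs
  linarith

/-- second moments -/
theorem mom2 (hN : 0 < N) (hu : star u ⬝ᵥ u = 1) :
    (∀ i, ∫ s, ‖vec u s i‖ ^ 2 ∂(haarU N) = 1 / N) ∧
    ∀ i j, ∫ s, ‖vec u s i‖ ^ 2 * ‖vec u s j‖ ^ 2 ∂(haarU N)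
      = (1 / ((N:ℝ) * (N + 1))) * (if i = j then 2 else 1) := by
  have hc : ∀ i, Continuous (fun s => vec u s i) := vec_cont u
  have hN0 : (0:ℝ) < N := by exact_mod_cast hN
  have i0 : Fin N := ⟨0, hN⟩
  constructor
  · intro i
    have h1 : ∑ j, ∫ s, ‖vec u s j‖ ^ 2 ∂(haarU N) = 1 := by
      rw [← integral_finsetSum _ (fun j _ => integ (by have := hc j; fun_prop))]
      have : ∀ s, ∑ j, ‖vec u s j‖ ^ 2 = 1 := fun s => sum_sq (vec_norm u hu s)
      simp [this]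
    rw [sum_congr rfl (fun j _ => pow_eq u j i 2)] at h1
    rw [sum_const, card_univ, Fintype.card_fin, nsmul_eq_mul] at h1
    field_simp
    linarith
  · set M := ∫ s, ‖vec u s i0‖ ^ 4 ∂(haarU N) with hM
    have hall : ∀ i j, ∫ s, ‖vec u s i‖ ^ 2 * ‖vec u s j‖ ^ 2 ∂(haarU N) = (M / 2) * (if i = j then 2 else 1) := by
      intro i j
      by_cases hij : i = j
      · subst hij
        rw [if_pos rfl]
        have e : (fun s => ‖vec u s i‖ ^ 2 * ‖vec u s i‖ ^ 2) = fun s => ‖vec u s i‖ ^ 4 := by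
          funext s; ring
        rw [e, hM, pow_eq u i i0 4]; ring
      · rw [if_neg hij]
        have h := cross u i j hij
        rw [pow_eq u i i0 4, ← hM] at h
        linarith
    have h1 : ∑ i, ∑ j, ∫ s, ‖vec u s i‖ ^ 2 * ‖vec u s j‖ ^ 2 ∂(haarU N) = 1 := by
      have e : ∀ i, ∑ j, ∫ s, ‖vec u s i‖ ^ 2 * ‖vec u s j‖ ^ 2 ∂(haarU N)
          = ∫ s, ∑ j, ‖vec u s i‖ ^ 2 * ‖vec u s j‖ ^ 2 ∂(haarU N) := by
        intro i
        rw [← integral_finsetSum _ (fun j _ => integ (by have := hc j; have := hc i; fun_prop))]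
      rw [sum_congr rfl (fun i _ => e i),
        ← integral_finsetSum _ (fun i _ => integ (by fun_prop))]
      have : ∀ s, ∑ i, ∑ j, ‖vec u s i‖ ^ 2 * ‖vec u s j‖ ^ 2 = 1 := by
        intro s
        rw [← Finset.sum_mul_sum, sum_sq (vec_norm u hu s), one_mul]
      simp [this]
    have h2 : ∀ i : Fin N, ∑ j, (M / 2) * (if i = j then (2:ℝ) else 1) = (M / 2) * (N + 1) := by
      intro i
      rw [← mul_sum]
      congr 1
      have : ∀ j, (if i = j then (2:ℝ) else 1) = 1 + (if i = j then 1 else 0) := by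
        intro j; split_ifs <;> norm_num
      rw [sum_congr rfl (fun j _ => this j), sum_add_distrib]
      simp
    rw [sum_congr rfl (fun i _ => (sum_congr rfl (fun j _ => hall i j)).trans (h2 i)),
      sum_const, card_univ, Fintype.card_fin, nsmul_eq_mul] at h1
    have h3 : M / 2 = 1 / ((N:ℝ) * (N + 1)) := by
      field_simp
      field_simp at h1
      linarith
    intro i j
    rw [hall, h3]

theorem conc_sq (hN : 0 < N) (hu : star u ⬝ᵥ u = 1) (c : Fin N → ℝ) (h0 : ∀ i, 0 ≤ c i) (h1 : ∀ i, c i ≤ 1) :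
    ∫ s, (∑ i, c i * ‖vec u s i‖ ^ 2 - (∑ i, c i) / N) ^ 2 ∂(haarU N) ≤ 1 / N := by
  have hc : ∀ i, Continuous (fun s => vec u s i) := vec_cont u
  have hN0 : (0:ℝ) < N := by exact_mod_cast hN
  obtain ⟨hA, hB⟩ := mom2 u hN hu
  set m : ℝ := (∑ i, c i) / N with hm
  have e1 : ∀ s, (∑ i, c i * ‖vec u s i‖ ^ 2 - m) ^ 2
      = ∑ i, ∑ j, (c i * c j) * (‖vec u s i‖ ^ 2 * ‖vec u s j‖ ^ 2)
        - (2 * m) * (∑ i, c i * ‖vec u s i‖ ^ 2) + m ^ 2 := by
    intro s
    have : ∑ i, ∑ j, (c i * c j) * (‖vec u s i‖ ^ 2 * ‖vec u s j‖ ^ 2)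
        = (∑ i, c i * ‖vec u s i‖ ^ 2) * (∑ i, c i * ‖vec u s i‖ ^ 2) := by
      rw [Finset.sum_mul_sum]
      apply sum_congr rfl
      intro i _
      apply sum_congr rfl
      intro j _
      ring
    rw [this]; ring
  have i1 : Integrable (fun s => ∑ i, ∑ j, (c i * c j) * (‖vec u s i‖ ^ 2 * ‖vec u s j‖ ^ 2)) (haarU N) :=
    integ (by fun_prop)
  have i2 : Integrable (fun s => (2 * m) * (∑ i, c i * ‖vec u s i‖ ^ 2)) (haarU N) := integ (by fun_prop)
  have i12 : Integrable (fun s => ∑ i, ∑ j, (c i * c j) * (‖vec u s i‖ ^ 2 * ‖vec u s j‖ ^ 2)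
    - (2 * m) * (∑ i, c i * ‖vec u s i‖ ^ 2)) (haarU N) := integ (by fun_prop)
  have v1 : ∫ s, ∑ i, ∑ j, (c i * c j) * (‖vec u s i‖ ^ 2 * ‖vec u s j‖ ^ 2) ∂(haarU N)
      = (1 / ((N:ℝ) * (N + 1))) * ((∑ i, c i) ^ 2 + ∑ i, c i ^ 2) := by
    rw [integral_finsetSum _ (fun i _ => integ (by fun_prop))]
    have : ∀ i, ∫ s, ∑ j, (c i * c j) * (‖vec u s i‖ ^ 2 * ‖vec u s j‖ ^ 2) ∂(haarU N)
        = ∑ j, (1 / ((N:ℝ) * (N + 1))) * (c i * c j + if i = j then c i * c j else 0) := by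
      intro i
      rw [integral_finsetSum _ (fun j _ => integ (by have := hc j; have := hc i; fun_prop))]
      apply sum_congr rfl
      intro j _
      rw [integral_const_mul, hB]
      split_ifs <;> ring
    rw [sum_congr rfl (fun i _ => this i)]
    simp only [← mul_sum, sum_add_distrib, Finset.sum_ite_eq, Finset.mem_univ, if_true]
    congr 2
    · rw [sq, Finset.sum_mul_sum]
      apply sum_congr rfl
      intro i _
      rw [mul_sum]
    · apply sum_congr rfl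
      intro i _
      ring
  have v2 : ∫ s, (2 * m) * (∑ i, c i * ‖vec u s i‖ ^ 2) ∂(haarU N) = 2 * m * m := by
    rw [integral_const_mul, integral_finsetSum _ (fun i _ => integ (by have := hc i; fun_prop))]
    congr 1
    rw [hm, sum_div]
    apply sum_congr rfl
    intro i _
    rw [integral_const_mul, hA]; ring
  rw [integral_congr_ae (Filter.Eventually.of_forall e1), integral_add i12 (integrable_const _),
    integral_sub i1 i2, v1, v2]
  simp only [integral_const, probReal_univ, smul_eq_mul, one_mul]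
  have hs2 : ∑ i, c i ^ 2 ≤ N := by
    calc ∑ i, c i ^ 2 ≤ ∑ _i : Fin N, (1:ℝ) := by
          apply sum_le_sum
          intro i _
          exact pow_le_one₀ (h0 i) (h1 i)
      _ = N := by simp
  have hms : (∑ i, c i) = m * N := by rw [hm]; field_simp
  rw [hms]
  have hq : (1 / ((N:ℝ) * (N + 1))) * ((m * N) ^ 2 + ∑ i, c i ^ 2) ≤ (1 / ((N:ℝ) * N)) * ((m * N) ^ 2 + N) := by
    apply mul_le_mul
    · apply one_div_le_one_div_of_le (by positivity)
      nlinarith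
    · linarith
    · have : 0 ≤ ∑ i, c i ^ 2 := sum_nonneg (fun i _ => sq_nonneg _)
      positivity
    · positivity
  have hq2 : (1 / ((N:ℝ) * N)) * ((m * N) ^ 2 + N) = m ^ 2 + 1 / N := by field_simp
  rw [hq2] at hq
  linarith

theorem conc_abs (hN : 0 < N) (hu : star u ⬝ᵥ u = 1) (c : Fin N → ℝ) (h0 : ∀ i, 0 ≤ c i) (h1 : ∀ i, c i ≤ 1) :
    ∫ s, |∑ i, c i * ‖vec u s i‖ ^ 2 - (∑ i, c i) / N| ∂(haarU N) ≤ 1 / Real.sqrt N := by
  have hc : ∀ i, Continuous (fun s => vec u s i) := vec_cont u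
  have hN0 : (0:ℝ) < N := by exact_mod_cast hN
  have hq := Real.sqrt_pos.2 hN0
  have hqq : Real.sqrt N * Real.sqrt N = N := Real.mul_self_sqrt hN0.le
  have h := conc_sq u hN hu c h0 h1
  have hle : ∀ s, |∑ i, c i * ‖vec u s i‖ ^ 2 - (∑ i, c i) / N|
      ≤ (Real.sqrt N / 2) * (∑ i, c i * ‖vec u s i‖ ^ 2 - (∑ i, c i) / N) ^ 2 + 1 / (2 * Real.sqrt N) := by
    intro s
    set x := ∑ i, c i * ‖vec u s i‖ ^ 2 - (∑ i, c i) / N with hx
    have h1 : 0 ≤ (Real.sqrt N * |x| - 1) ^ 2 := sq_nonneg _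
    have h2 : (Real.sqrt N / 2) * x ^ 2 + 1 / (2 * Real.sqrt N) - |x|
        = (Real.sqrt N * |x| - 1) ^ 2 / (2 * Real.sqrt N) := by
      rw [← sq_abs x]
      field_simp
      ring
    have h3 : 0 ≤ (Real.sqrt N * |x| - 1) ^ 2 / (2 * Real.sqrt N) := by positivity
    linarith
  have i1 : Integrable (fun s => |∑ i, c i * ‖vec u s i‖ ^ 2 - (∑ i, c i) / N|) (haarU N) := integ (by fun_prop)
  have i2 : Integrable (fun s => (Real.sqrt N / 2) * (∑ i, c i * ‖vec u s i‖ ^ 2 - (∑ i, c i) / N) ^ 2) (haarU N) :=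
    integ (by fun_prop)
  refine (integral_mono i1 (i2.add (integrable_const _)) hle).trans ?_
  have e := integral_add i2 (integrable_const (1 / (2 * Real.sqrt N)) : Integrable (fun _ : UU N => 1 / (2 * Real.sqrt N)) (haarU N))
  simp only [Pi.add_apply]
  rw [e, integral_const_mul]
  simp only [integral_const, probReal_univ, smul_eq_mul, one_mul]
  have h4 : (Real.sqrt N / 2) * ∫ s, (∑ i, c i * ‖vec u s i‖ ^ 2 - (∑ i, c i) / N) ^ 2 ∂(haarU N)
      ≤ (Real.sqrt N / 2) * (1 / N) := mul_le_mul_of_nonneg_left h (by positivity)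
  have h5 : (Real.sqrt N / 2) * (1 / N) = 1 / (2 * Real.sqrt N) := by
    rw [div_mul_div_comm, mul_one, div_eq_div_iff (by positivity) (by positivity)]
    linear_combination 2 * hqq
  rw [h5] at h4
  have h6 : 1 / (2 * Real.sqrt N) + 1 / (2 * Real.sqrt N) = 1 / Real.sqrt N := by field_simp; norm_num
  linarith

/-- the eigenvalues lie in `[0,1]` -/
structure Contr (C : Matrix (Fin N) (Fin N) ℂ) : Prop where
  pos : C.PosSemidef
  le : (1 - C).PosSemidef

theorem spec_pow (C : Matrix (Fin N) (Fin N) ℂ) (hC : C.IsHermitian) (a : ℕ) :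
    C ^ a = (hC.eigenvectorUnitary : Matrix (Fin N) (Fin N) ℂ)
      * diagonal (fun i => ((hC.eigenvalues i ^ a : ℝ) : ℂ))
      * (hC.eigenvectorUnitary : Matrix (Fin N) (Fin N) ℂ)ᴴ := by
  have h1 := hC.spectral_theorem
  have hpow := congrArg (fun X => X ^ a) h1
  rw [hpow, ← map_pow, diagonal_pow, Unitary.conjStarAlgAut_apply]
  congr 2
  congr 1
  funext i
  simp

theorem eig_le (C : Matrix (Fin N) (Fin N) ℂ) (h : Contr C) (i : Fin N) : h.pos.1.eigenvalues i ≤ 1 := by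
  have h1 := spec_pow C h.pos.1 1
  rw [pow_one] at h1
  set U := (h.pos.1.eigenvectorUnitary : Matrix (Fin N) (Fin N) ℂ) with hU
  have hUU : Uᴴ * U = 1 := (mem_unitaryGroup_iff' (A := U)).1 h.pos.1.eigenvectorUnitary.2
  have h2 : (Uᴴ * (1 - C) * U).PosSemidef := h.le.conjTranspose_mul_mul_same U
  have h3 : Uᴴ * (1 - C) * U = 1 - diagonal (fun i => ((h.pos.1.eigenvalues i ^ 1 : ℝ) : ℂ)) := by
    rw [mul_sub, sub_mul, mul_one, hUU]
    congr 1
    conv_lhs => rw [h1]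
    have : Uᴴ * (U * diagonal (fun i => ((h.pos.1.eigenvalues i ^ 1 : ℝ) : ℂ)) * Uᴴ) * U
        = (Uᴴ * U) * diagonal (fun i => ((h.pos.1.eigenvalues i ^ 1 : ℝ) : ℂ)) * (Uᴴ * U) := by
      simp only [mul_assoc]
    rw [this, hUU, one_mul, mul_one]
  rw [h3] at h2
  have h4 := h2.diag_nonneg (i := i)
  simp only [Matrix.sub_apply, Matrix.one_apply_eq, Matrix.diagonal_apply_eq, pow_one] at h4
  have h5 : (0:ℂ) ≤ ((1 - h.pos.1.eigenvalues i : ℝ) : ℂ) := by
    push_cast; exact h4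
  have h6 : (0:ℝ) ≤ 1 - h.pos.1.eigenvalues i := by exact_mod_cast h5
  linarith

theorem eig_nonneg (C : Matrix (Fin N) (Fin N) ℂ) (h : Contr C) (i : Fin N) : 0 ≤ h.pos.1.eigenvalues i :=
  h.pos.eigenvalues_nonneg i

theorem qf_spec (C : Matrix (Fin N) (Fin N) ℂ) (hC : C.IsHermitian) (v : Fin N → ℂ) (a : ℕ) :
    qf C v a = ((∑ i, hC.eigenvalues i ^ a *
      ‖((hC.eigenvectorUnitary : Matrix (Fin N) (Fin N) ℂ)ᴴ *ᵥ v) i‖ ^ 2 : ℝ) : ℂ) := by
  unfold qf
  rw [spec_pow C hC a]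
  set U := (hC.eigenvectorUnitary : Matrix (Fin N) (Fin N) ℂ) with hU
  rw [← mulVec_mulVec, ← mulVec_mulVec]
  set x := Uᴴ *ᵥ v with hx
  have h1 : star v ⬝ᵥ (U *ᵥ (diagonal (fun i => ((hC.eigenvalues i ^ a : ℝ) : ℂ)) *ᵥ x))
      = star x ⬝ᵥ (diagonal (fun i => ((hC.eigenvalues i ^ a : ℝ) : ℂ)) *ᵥ x) := by
    rw [dotProduct_mulVec, hx, star_mulVec, conjTranspose_conjTranspose]
  rw [h1]
  unfold dotProduct
  push_cast
  apply sum_congr rfl
  intro i _
  rw [mulVec_diagonal, Pi.star_apply, Complex.star_def]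
  have : (starRingEnd ℂ) (x i) * ((hC.eigenvalues i : ℂ) ^ a * x i)
      = (hC.eigenvalues i : ℂ) ^ a * ((starRingEnd ℂ) (x i) * x i) := by ring
  rw [this, ← Complex.normSq_eq_conj_mul_self, Complex.normSq_eq_norm_sq]
  push_cast; rfl

theorem tr_spec (C : Matrix (Fin N) (Fin N) ℂ) (hC : C.IsHermitian) (a : ℕ) :
    (C ^ a).trace = ((∑ i, hC.eigenvalues i ^ a : ℝ) : ℂ) := by
  rw [spec_pow C hC a, trace_mul_comm, ← mul_assoc]
  have hUU : (hC.eigenvectorUnitary : Matrix (Fin N) (Fin N) ℂ)ᴴ * (hC.eigenvectorUnitary : Matrix (Fin N) (Fin N) ℂ) = 1 :=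
    (mem_unitaryGroup_iff' (A := (hC.eigenvectorUnitary : Matrix (Fin N) (Fin N) ℂ))).1 hC.eigenvectorUnitary.2
  rw [hUU, one_mul, trace_diagonal]
  push_cast; rfl

theorem qf_norm (C : Matrix (Fin N) (Fin N) ℂ) (h : Contr C) (v : Fin N → ℂ) (hv : star v ⬝ᵥ v = 1) (a : ℕ) :
    ‖qf C v a‖ ≤ 1 := by
  rw [qf_spec C h.pos.1, Complex.norm_real, Real.norm_eq_abs]
  set U := (h.pos.1.eigenvectorUnitary : Matrix (Fin N) (Fin N) ℂ) with hU
  have hUU : U * Uᴴ = 1 := (mem_unitaryGroup_iff (A := U)).1 h.pos.1.eigenvectorUnitary.2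
  have h1 : star (Uᴴ *ᵥ v) ⬝ᵥ (Uᴴ *ᵥ v) = 1 := by
    rw [star_mulVec, conjTranspose_conjTranspose, ← dotProduct_mulVec, mulVec_mulVec, hUU, one_mulVec, hv]
  have h2 := sum_sq h1
  have h3 : 0 ≤ ∑ i, h.pos.1.eigenvalues i ^ a * ‖(Uᴴ *ᵥ v) i‖ ^ 2 :=
    sum_nonneg (fun i _ => mul_nonneg (pow_nonneg (eig_nonneg C h i) _) (by positivity))
  rw [abs_of_nonneg h3, ← h2]
  apply sum_le_sum
  intro i _
  calc h.pos.1.eigenvalues i ^ a * ‖(Uᴴ *ᵥ v) i‖ ^ 2 ≤ 1 * ‖(Uᴴ *ᵥ v) i‖ ^ 2 :=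
        mul_le_mul_of_nonneg_right (pow_le_one₀ (eig_nonneg C h i) (eig_le C h i)) (by positivity)
    _ = _ := one_mul _

/-- normalised moments -/
noncomputable def mm (C : Matrix (Fin N) (Fin N) ℂ) (a : ℕ) : ℂ := (C ^ a).trace / N

theorem mm_norm (hN : 0 < N) (C : Matrix (Fin N) (Fin N) ℂ) (h : Contr C) (a : ℕ) : ‖mm C a‖ ≤ 1 := by
  have hN0 : (0:ℝ) < N := by exact_mod_cast hN
  unfold mm
  rw [norm_div, tr_spec C h.pos.1, Complex.norm_real, Complex.norm_natCast, Real.norm_eq_abs, div_le_one hN0]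
  have h3 : 0 ≤ ∑ i, h.pos.1.eigenvalues i ^ a := sum_nonneg (fun i _ => pow_nonneg (eig_nonneg C h i) _)
  rw [abs_of_nonneg h3]
  calc ∑ i, h.pos.1.eigenvalues i ^ a ≤ ∑ _i : Fin N, (1:ℝ) := by
        apply sum_le_sum
        intro i _
        exact pow_le_one₀ (eig_nonneg C h i) (eig_le C h i)
    _ = N := by simp

theorem conc (hN : 0 < N) (hu : star u ⬝ᵥ u = 1) (C : Matrix (Fin N) (Fin N) ℂ) (h : Contr C) (a : ℕ) :
    ∫ s, ‖qf C (vec u s) a - mm C a‖ ∂(haarU N) ≤ 1 / Real.sqrt N := by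
  set g : UU N := h.pos.1.eigenvectorUnitary with hg
  have h1 := conc_abs u hN hu (fun i => h.pos.1.eigenvalues i ^ a)
    (fun i => pow_nonneg (eig_nonneg C h i) _) (fun i => pow_le_one₀ (eig_nonneg C h i) (eig_le C h i))
  refine le_trans (le_of_eq ?_) h1
  have h2 := integral_mul_right_eq_self (μ := haarU N)
    (fun s => |∑ i, h.pos.1.eigenvalues i ^ a * ‖vec u s i‖ ^ 2 - (∑ i, h.pos.1.eigenvalues i ^ a) / N|) g
  rw [← h2]
  congr 1
  funext s
  have h3 : vec u (s * g) = (g : Matrix (Fin N) (Fin N) ℂ)ᴴ *ᵥ vec u s := by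
    unfold vec
    have h1 : ((s * g : UU N) : Matrix (Fin N) (Fin N) ℂ) = (s : Matrix (Fin N) (Fin N) ℂ) * (g : Matrix (Fin N) (Fin N) ℂ) := rfl
    rw [h1, conjTranspose_mul, ← mulVec_mulVec]
  rw [h3]
  unfold mm
  rw [tr_spec C h.pos.1, qf_spec C h.pos.1, ← Complex.ofReal_natCast, ← Complex.ofReal_div, ← Complex.ofReal_sub,
    Complex.norm_real, Real.norm_eq_abs]

end Pool.Agent.X145.DL
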