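import Pool.Agent.X145.DL.Expect

/-! Convergence of the moments along `L_N / N → τ`. -/

set_option autoImplicit false
set_option linter.unusedSectionVars false

namespace Pool.Agent.X145.DL

open Finset Matrix MeasureTheory ProbabilityTheory Pool.Agent.H667R2.FG Filter Topology
open scoped ComplexOrder

/-- constants of `step_bound` -/
noncomputable def Lam (p : ℕ) : ℝ := (step_bound p).choose
noncomputable def Kap (p : ℕ) : ℝ := (step_bound p).choose_spec.choose

theorem Lam_nonneg (p : ℕ) : 0 ≤ Lam p := (step_bound p).choose_spec.choose_spec.1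
theorem Kap_nonneg (p : ℕ) : 0 ≤ Kap p := (step_bound p).choose_spec.choose_spec.2.1

theorem step_bound' (p : ℕ) (N : ℕ) (hN : 0 < N) (P : Matrix (Fin N) (Fin N) ℂ) (hP : Pᴴ = P) (hPP : P * P = P)
    (u : Fin N → ℂ) (hu : star u ⬝ᵥ u = 1) (hPu : P = 1 - vecMulVec u (star u)) (s : ℕ → UU N) (L : ℕ) :
    ‖mm (CC P s (L + 1)) p - mc (((L + 1 : ℕ) : ℝ) / N) p‖ ≤ ‖mm (CC P s L) p - mc ((L:ℝ) / N) p‖
      + (Lam p / N) * ∑ a ∈ range (p + 1), (‖qf (CC P s L) (vec u (s L)) a - mm (CC P s L) a‖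
        + ‖mm (CC P s L) a - mc ((L:ℝ) / N) a‖) + Kap p / N ^ 2 :=
  (step_bound p).choose_spec.choose_spec.2.2 N hN P hP hPP u hu hPu s L

/-- the model for a fixed size -/
structure Model (N : ℕ) {Ω : Type*} [MeasurableSpace Ω] (μ : Measure Ω) (P : Matrix (Fin N) (Fin N) ℂ)
    (S : ℕ → Ω → UU N) : Prop where
  prob : IsProbabilityMeasure μ
  herm : Pᴴ = P
  idem : P * P = P
  rank : P.rank = N - 1
  iid : IIDHaar μ N S

section
variable {Ω : Type*} [MeasurableSpace Ω] (μ : Measure Ω) {N : ℕ}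

/-- expected deviation of a moment -/
noncomputable def dev (P : Matrix (Fin N) (Fin N) ℂ) (S : ℕ → Ω → UU N) (t : ℝ) (L a : ℕ) : ℝ :=
  ∫ ω, ‖mm (CC P (fun i => S i ω) L) a - mc t a‖ ∂μ

theorem dev_nonneg (P : Matrix (Fin N) (Fin N) ℂ) (S : ℕ → Ω → UU N) (t : ℝ) (L a : ℕ) : 0 ≤ dev μ P S t L a :=
  integral_nonneg (fun _ => norm_nonneg _)

variable {μ}
variable {P : Matrix (Fin N) (Fin N) ℂ} {S : ℕ → Ω → UU N}

theorem dev_int (hN : 0 < N) (h : Model N μ P S) (t : ℝ) (ht : 0 ≤ t) (L a : ℕ) :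
    Integrable (fun ω => ‖mm (CC P (fun i => S i ω) L) a - mc t a‖) μ := by
  have := h.prob
  have hm := CC_meas P S h.iid.meas L a
  refine Integrable.of_bound (hm.sub_const _).norm.aestronglyMeasurable 2 (Filter.Eventually.of_forall ?_)
  intro ω
  rw [norm_norm]
  have h1 := mm_norm hN _ (contr_CC P h.herm h.idem (fun i => S i ω) L) a
  have h2 := mc_norm t ht a
  exact (norm_sub_le _ _).trans (by linarith)

theorem qf_int (hN : 0 < N) (h : Model N μ P S) (u : Fin N → ℂ) (hu : star u ⬝ᵥ u = 1) (L a : ℕ) :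
    Integrable (fun ω => ‖qf (CC P (fun i => S i ω) L) (vec u (S L ω)) a - mm (CC P (fun i => S i ω) L) a‖) μ := by
  have := h.prob
  have hm := CC_meas P S h.iid.meas L a
  have hq := qf_meas P u S h.iid.meas L a
  refine Integrable.of_bound (hq.sub hm).norm.aestronglyMeasurable 2 (Filter.Eventually.of_forall ?_)
  intro ω
  rw [norm_norm]
  have hc := contr_CC P h.herm h.idem (fun i => S i ω) L
  have h1 := mm_norm hN _ hc a
  have h2 := qf_norm _ hc (vec u (S L ω)) (vec_norm u hu _) a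
  exact (norm_sub_le _ _).trans (by linarith)

theorem dev_step (hN : 0 < N) (h : Model N μ P S) (L p : ℕ) :
    dev μ P S (((L + 1 : ℕ) : ℝ) / N) (L + 1) p ≤ dev μ P S ((L:ℝ) / N) L p
      + (Lam p / N) * ∑ a ∈ range (p + 1), (1 / Real.sqrt N + dev μ P S ((L:ℝ) / N) L a) + Kap p / N ^ 2 := by
  have := h.prob
  obtain ⟨u, hu, hPu⟩ := proj_form P hN h.herm h.idem h.rank
  have ht0 : (0:ℝ) ≤ (L:ℝ) / N := by positivity
  have ht1 : (0:ℝ) ≤ ((L + 1 : ℕ) : ℝ) / N := by positivity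
  have hle := fun ω => step_bound' p N hN P h.herm h.idem u hu hPu (fun i => S i ω) L
  have i1 := dev_int hN h _ ht0 L p
  have iq := fun a => qf_int hN h u hu L a
  have id := fun a => dev_int hN h _ ht0 L a
  have iqd : ∀ a ∈ range (p + 1), Integrable (fun ω =>
      ‖qf (CC P (fun i => S i ω) L) (vec u (S L ω)) a - mm (CC P (fun i => S i ω) L) a‖
        + ‖mm (CC P (fun i => S i ω) L) a - mc ((L:ℝ) / N) a‖) μ := fun a _ => (iq a).add (id a)
  have i2 : Integrable (fun ω => (Lam p / N) * ∑ a ∈ range (p + 1),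
      (‖qf (CC P (fun i => S i ω) L) (vec u (S L ω)) a - mm (CC P (fun i => S i ω) L) a‖
        + ‖mm (CC P (fun i => S i ω) L) a - mc ((L:ℝ) / N) a‖)) μ :=
    (integrable_finsetSum _ (fun a _ => (iq a).add (id a))).const_mul _
  have hmono := integral_mono (dev_int hN h _ ht1 (L + 1) p) ((i1.add i2).add (integrable_const (Kap p / N ^ 2))) hle
  refine hmono.trans ?_
  have e1 := integral_add (i1.add i2) (integrable_const (Kap p / (N:ℝ) ^ 2) : Integrable (fun _ : Ω => Kap p / (N:ℝ) ^ 2) μ)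
  have e2 := integral_add i1 i2
  simp only [Pi.add_apply] at e1
  simp only [Pi.add_apply]
  rw [e1, e2, integral_const_mul, integral_finsetSum _ iqd]
  simp only [integral_const, probReal_univ, smul_eq_mul, one_mul]
  have hLam : 0 ≤ Lam p / N := div_nonneg (Lam_nonneg p) (by positivity)
  have h3 : ∑ a ∈ range (p + 1), ∫ ω, (‖qf (CC P (fun i => S i ω) L) (vec u (S L ω)) a - mm (CC P (fun i => S i ω) L) a‖
        + ‖mm (CC P (fun i => S i ω) L) a - mc ((L:ℝ) / N) a‖) ∂μ
      ≤ ∑ a ∈ range (p + 1), (1 / Real.sqrt N + dev μ P S ((L:ℝ) / N) L a) := by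
    apply sum_le_sum
    intro a _
    rw [integral_add (iq a) (id a)]
    exact add_le_add (indep_conc μ hN P h.herm h.idem u hu S h.iid L a) le_rfl
  have h4 := mul_le_mul_of_nonneg_left h3 hLam
  exact add_le_add (add_le_add le_rfl h4) le_rfl

noncomputable def LL (R : ℕ) : ℝ := ∑ p ∈ range (R + 1), Lam p
noncomputable def KK (R : ℕ) : ℝ := ∑ p ∈ range (R + 1), Kap p
theorem LL_nonneg (R : ℕ) : 0 ≤ LL R := sum_nonneg (fun p _ => Lam_nonneg p)
theorem KK_nonneg (R : ℕ) : 0 ≤ KK R := sum_nonneg (fun p _ => Kap_nonneg p)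

variable (μ P S) in
/-- total deviation -/
noncomputable def DD (R L : ℕ) : ℝ := ∑ p ∈ range (R + 1), dev μ P S ((L:ℝ) / N) L p

theorem DD_step (hN : 0 < N) (h : Model N μ P S) (R L : ℕ) :
    DD μ P S R (L + 1) ≤ DD μ P S R L * (1 + LL R / N)
      + ((LL R / N) * ((R + 1) / Real.sqrt N) + KK R / N ^ 2) := by
  have h1 : ∀ p ∈ range (R + 1), dev μ P S (((L + 1 : ℕ) : ℝ) / N) (L + 1) p ≤ dev μ P S ((L:ℝ) / N) L p
      + (Lam p / N) * ((R + 1) / Real.sqrt N + DD μ P S R L) + Kap p / N ^ 2 := by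
    intro p hp
    have hp' := mem_range.1 hp
    refine (dev_step hN h L p).trans ?_
    have hLam : 0 ≤ Lam p / N := div_nonneg (Lam_nonneg p) (by positivity)
    have h2 : ∑ a ∈ range (p + 1), (1 / Real.sqrt N + dev μ P S ((L:ℝ) / N) L a)
        ≤ (R + 1) / Real.sqrt N + DD μ P S R L := by
      calc _ ≤ ∑ a ∈ range (R + 1), (1 / Real.sqrt N + dev μ P S ((L:ℝ) / N) L a) := by
            apply sum_le_sum_of_subset_of_nonneg (range_mono (by omega))
            intro a _ _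
            have := dev_nonneg μ P S ((L:ℝ) / N) L a
            positivity
        _ = _ := by
            rw [sum_add_distrib]
            simp only [sum_const, card_range, nsmul_eq_mul, DD]
            push_cast
            ring
    have := mul_le_mul_of_nonneg_left h2 hLam
    linarith
  refine (sum_le_sum h1).trans (le_of_eq ?_)
  rw [sum_add_distrib, sum_add_distrib, ← sum_mul, ← sum_div, ← sum_div]
  unfold LL KK DD
  ring

theorem mom_at_zero (a : ℕ) : mom a 0 = 1 := by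
  unfold mom
  split_ifs with h
  · rfl
  · obtain ⟨b, rfl⟩ : ∃ b, a = b + 1 := ⟨a - 1, by omega⟩
    rw [sum_range_succ']
    simp

theorem DD_zero (hN : 0 < N) (R : ℕ) (hμ : IsProbabilityMeasure μ) : DD μ P S R 0 = 0 := by
  unfold DD
  apply sum_eq_zero
  intro a _
  unfold dev
  have hN0 : (N:ℂ) ≠ 0 := by exact_mod_cast hN.ne'
  have : ∀ ω, ‖mm (CC P (fun i => S i ω) 0) a - mc (((0:ℕ):ℝ) / N) a‖ = 0 := by
    intro ω
    have h1 : CC P (fun i => S i ω) 0 = 1 := by simp [CC, prodB]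
    rw [h1]
    unfold mm mc
    simp [mom_at_zero, hN0]
  simp only [this, integral_zero]

theorem DD_le (hN : 0 < N) (h : Model N μ P S) (R L : ℕ) :
    DD μ P S R L ≤ ((L:ℝ) / N) * (LL R * ((R + 1) / Real.sqrt N) + KK R / N) * Real.exp (LL R * ((L:ℝ) / N)) := by
  have hN0 : (0:ℝ) < N := by exact_mod_cast hN
  have h1 := gronwall (fun L => DD μ P S R L) (LL R / N) ((LL R / N) * ((R + 1) / Real.sqrt N) + KK R / N ^ 2)
    (div_nonneg (LL_nonneg R) hN0.le)
    (by have := LL_nonneg R; have := KK_nonneg R; positivity) (DD_zero hN R h.prob) (DD_step hN h R) L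
  refine h1.trans (le_of_eq ?_)
  have e1 : LL R / N * L = LL R * ((L:ℝ) / N) := by ring
  rw [e1]
  congr 1
  have hs : Real.sqrt N ≠ 0 := (Real.sqrt_pos.2 hN0).ne'
  field_simp

end

section
variable {Ω : ℕ → Type*} [∀ N, MeasurableSpace (Ω N)] {μ : ∀ N, Measure (Ω N)}
  {P : ∀ N, Matrix (Fin N) (Fin N) ℂ} {S : ∀ N, ℕ → Ω N → UU N}

theorem DD_tendsto (h : ∀ N, 2 ≤ N → Model N (μ N) (P N) (S N)) {L : ℕ → ℕ} {τ : ℝ}
    (hL : Tendsto (fun N => (L N : ℝ) / N) atTop (𝓝 τ)) (R : ℕ) :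
    Tendsto (fun N => DD (μ N) (P N) (S N) R (L N)) atTop (𝓝 0) := by
  have hn : Tendsto (fun N : ℕ => (N:ℝ)) atTop atTop := tendsto_natCast_atTop_atTop
  have h1 : Tendsto (fun N : ℕ => ((R:ℝ) + 1) / Real.sqrt N) atTop (𝓝 0) :=
    (Real.tendsto_sqrt_atTop.comp hn).const_div_atTop _
  have h2 : Tendsto (fun N : ℕ => KK R / (N:ℝ)) atTop (𝓝 0) := hn.const_div_atTop _
  have h3 : Tendsto (fun N : ℕ => ((L N:ℝ) / N) * (LL R * ((R + 1) / Real.sqrt N) + KK R / N)
      * Real.exp (LL R * ((L N:ℝ) / N))) atTop (𝓝 (τ * (LL R * 0 + 0) * Real.exp (LL R * τ))) :=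
    (hL.mul ((h1.const_mul _).add h2)).mul ((Real.continuous_exp.tendsto _).comp (hL.const_mul _))
  have e : τ * (LL R * 0 + 0) * Real.exp (LL R * τ) = 0 := by ring
  rw [e] at h3
  refine squeeze_zero' (Filter.Eventually.of_forall (fun N => ?_)) ?_ h3
  · exact sum_nonneg (fun a _ => dev_nonneg _ _ _ _ _ _)
  · filter_upwards [eventually_ge_atTop 2] with N hN
    exact DD_le (by omega) (h N hN) R (L N)

theorem dev_tendsto (h : ∀ N, 2 ≤ N → Model N (μ N) (P N) (S N)) {L : ℕ → ℕ} {τ : ℝ} (hτ : 0 < τ)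
    (hL : Tendsto (fun N => (L N : ℝ) / N) atTop (𝓝 τ)) (a : ℕ) :
    Tendsto (fun N => dev (μ N) (P N) (S N) τ (L N) a) atTop (𝓝 0) := by
  have h1 := DD_tendsto h hL a
  have h2 : Tendsto (fun N => |mom a ((L N:ℝ) / N) - mom a τ|) atTop (𝓝 0) := by
    have hc : ContinuousAt (mom a) τ := (mom_hasDeriv a τ).continuousAt
    have h3 := (hc.tendsto.comp hL).sub_const (mom a τ)
    rw [sub_self] at h3
    have := h3.abs
    simpa using this
  have h3 := h1.add h2
  rw [add_zero] at h3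
  refine squeeze_zero' (Filter.Eventually.of_forall (fun N => dev_nonneg _ _ _ _ _ _)) ?_ h3
  filter_upwards [eventually_ge_atTop 2] with N hN
  have hM := h N hN
  have := hM.prob
  have ht0 : (0:ℝ) ≤ (L N:ℝ) / N := by positivity
  have h4 : dev (μ N) (P N) (S N) τ (L N) a ≤ dev (μ N) (P N) (S N) ((L N:ℝ) / N) (L N) a
      + |mom a ((L N:ℝ) / N) - mom a τ| := by
    unfold dev
    have i1 := dev_int (by omega) hM _ ht0 (L N) a
    have i2 := dev_int (by omega) hM _ hτ.le (L N) a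
    have e := integral_add i1 (integrable_const (|mom a ((L N:ℝ) / N) - mom a τ|) :
      Integrable (fun _ : Ω N => |mom a ((L N:ℝ) / N) - mom a τ|) (μ N))
    simp only [integral_const, probReal_univ, smul_eq_mul, one_mul] at e
    rw [← e]
    apply integral_mono i2 (i1.add (integrable_const _))
    intro ω
    have e2 : mm (CC (P N) (fun i => S N i ω) (L N)) a - mc τ a
        = (mm (CC (P N) (fun i => S N i ω) (L N)) a - mc ((L N:ℝ) / N) a)
          + ((mom a ((L N:ℝ) / N) - mom a τ : ℝ) : ℂ) := by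
      unfold mc; push_cast; ring
    show ‖mm (CC (P N) (fun i => S N i ω) (L N)) a - mc τ a‖ ≤ ‖mm (CC (P N) (fun i => S N i ω) (L N)) a - mc ((L N:ℝ) / N) a‖ + |mom a ((L N:ℝ) / N) - mom a τ|
    rw [e2]
    refine (norm_add_le _ _).trans ?_
    rw [Complex.norm_real, Real.norm_eq_abs]
  refine h4.trans ?_
  apply add_le_add _ le_rfl
  unfold DD
  exact single_le_sum (f := fun p => dev (μ N) (P N) (S N) ((L N:ℝ) / N) (L N) p)
    (fun _ _ => dev_nonneg _ _ _ _ _ _) (mem_range.2 (by omega))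

end

end Pool.Agent.X145.DL
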