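import Pool.Agent.X145.DL.Abel

/-! The explicit moments and the differential equations they satisfy. -/

set_option autoImplicit false

namespace Pool.Agent.X145.DL

open Finset Polynomial

/-- polynomial part of the moments -/
noncomputable def mup (m : ℕ) (t : ℝ) : ℝ :=
  ∑ k ∈ range (m + 1), (A k).eval ((m:ℝ) - k) * t ^ k / (k.factorial : ℝ)

/-- the moments of `μ_t` -/
noncomputable def mom (p : ℕ) (t : ℝ) : ℝ :=
  if p = 0 then 1 else Real.exp (-(p * t)) * ∑ k ∈ range p, (1 - (k:ℝ) / p) * (p * t) ^ k / (k.factorial : ℝ)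

/-- minus the derivative of the moments -/
noncomputable def rate (p : ℕ) (t : ℝ) : ℝ :=
  Real.exp (-(p * t)) * ∑ k ∈ range p, (p * t) ^ k / (k.factorial : ℝ)

/-- the auxiliary sequence -/
noncomputable def eta (i : ℕ) (t : ℝ) : ℝ :=
  Real.exp (-((i + 1) * t)) * (((i:ℝ) + 1) * t) ^ i / ((i + 1).factorial : ℝ)

theorem A_diag (p k : ℕ) (hp : 1 ≤ p) : (p:ℝ) * (A k).eval ((p:ℝ) - k) = ((p:ℝ) - k) * (p:ℝ) ^ k := by
  rcases k with _ | k
  · simp [A]
  · rw [A_eval]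
    push_cast
    have : ((p:ℝ) - (k + 1) + k + 1) = p := by ring
    rw [this, pow_succ]; ring

theorem mom_eq (p : ℕ) (t : ℝ) : mom p t = Real.exp (-(p * t)) * mup p t := by
  unfold mom mup
  split_ifs with h
  · subst h; simp [A]
  · have hp : 1 ≤ p := Nat.one_le_iff_ne_zero.2 h
    have hp0 : (p:ℝ) ≠ 0 := by exact_mod_cast h
    congr 1
    rw [sum_range_succ]
    have h1 : (A p).eval ((p:ℝ) - p) = 0 := by
      obtain ⟨m, rfl⟩ : ∃ m, p = m + 1 := ⟨p - 1, by omega⟩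
      rw [sub_self, A_eval_zero]
    rw [h1, zero_mul, zero_div, add_zero]
    apply sum_congr rfl
    intro k _
    have h2 := A_diag p k hp
    have h3 : (A k).eval ((p:ℝ) - k) = ((p:ℝ) - k) * (p:ℝ) ^ k / p := by
      rw [eq_div_iff hp0]; linarith
    rw [h3, mul_pow]
    congr 1
    field_simp

theorem sum_reindex {M : Type*} [AddCommMonoid M] (n : ℕ) (f : ℕ → ℕ → M) :
    ∑ i ∈ range (n + 1), ∑ k ∈ range (n - i + 1), f i k
      = ∑ r ∈ range (n + 1), ∑ i ∈ range (r + 1), f i (r - i) := by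
  rw [sum_sigma', sum_sigma']
  refine sum_nbij' (fun x => ⟨x.1 + x.2, x.1⟩) (fun x => ⟨x.2, x.1 - x.2⟩) ?_ ?_ ?_ ?_ ?_
  · rintro ⟨i, k⟩ h
    simp only [mem_sigma, mem_range] at h ⊢
    omega
  · rintro ⟨r, i⟩ h
    simp only [mem_sigma, mem_range] at h ⊢
    omega
  · rintro ⟨i, k⟩ h
    simp
  · rintro ⟨r, i⟩ h
    simp only [mem_sigma, mem_range] at h
    have : i + (r - i) = r := by omega
    simp [this]
  · rintro ⟨i, k⟩ h
    simp

theorem A_one (i : ℕ) : (A i).eval 1 / (i.factorial : ℝ) = ((i:ℝ) + 1) ^ i / ((i + 1).factorial : ℝ) := by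
  have h1 : ((i + 1).factorial : ℝ) = ((i:ℝ) + 1) * (i.factorial : ℝ) := by
    rw [Nat.factorial_succ]; push_cast; ring
  have h2 : (i.factorial : ℝ) ≠ 0 := by positivity
  have h3 : ((i:ℝ) + 1) ≠ 0 := by positivity
  rw [h1, div_eq_div_iff h2 (by positivity)]
  rcases i with _ | i
  · simp [A]
  · rw [A_eval]
    push_cast
    have : (1:ℝ) + i + 1 = i + 1 + 1 := by ring
    rw [this, pow_succ]; ring

theorem choose_fact (r i : ℕ) (h : i ≤ r) :
    (1:ℝ) / ((i.factorial : ℝ) * ((r - i).factorial : ℝ)) = ((r.choose i : ℕ) : ℝ) / (r.factorial : ℝ) := by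
  have h1 := Nat.choose_mul_factorial_mul_factorial h
  have h2 : ((r.choose i : ℕ) : ℝ) * (i.factorial : ℝ) * ((r - i).factorial : ℝ) = (r.factorial : ℝ) := by
    exact_mod_cast h1
  have h3 : (i.factorial : ℝ) ≠ 0 := by positivity
  have h4 : ((r - i).factorial : ℝ) ≠ 0 := by positivity
  have h5 : (r.factorial : ℝ) ≠ 0 := by positivity
  rw [div_eq_div_iff (by positivity) h5, one_mul, ← h2]
  ring

theorem mup_rec (n : ℕ) (t : ℝ) :
    mup (n + 1) t = ∑ i ∈ range (n + 1), ((((i:ℝ) + 1) * t) ^ i / ((i + 1).factorial : ℝ)) * mup (n - i) t := by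
  unfold mup
  simp_rw [mul_sum]
  rw [sum_reindex n (fun i k => ((((i:ℝ) + 1) * t) ^ i / ((i + 1).factorial : ℝ)) *
    ((A k).eval (((n - i : ℕ) : ℝ) - k) * t ^ k / (k.factorial : ℝ)))]
  rw [sum_range_succ]
  have h1 : (A (n+1)).eval (((n + 1 : ℕ) : ℝ) - ((n + 1 : ℕ) : ℝ)) = 0 := by
    rw [sub_self, A_eval_zero]
  rw [h1, zero_mul, zero_div, add_zero]
  apply sum_congr rfl
  intro r hr
  have hr' : r ≤ n := by simpa [Nat.lt_succ_iff] using hr
  have h2 := abel_two r ((n:ℝ) - r)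
  have h3 : ∀ i ∈ range (r + 1), ((((i:ℝ) + 1) * t) ^ i / ((i + 1).factorial : ℝ)) *
      ((A (r - i)).eval (((n - i : ℕ) : ℝ) - ((r - i : ℕ) : ℝ)) * t ^ (r - i) / ((r - i).factorial : ℝ))
      = ((((r.choose i : ℕ) : ℝ) * (A i).eval 1) * (A (r - i)).eval ((n:ℝ) - r)) * (t ^ r / (r.factorial : ℝ)) := by
    intro i hi
    have hi' : i ≤ r := by simpa [Nat.lt_succ_iff] using hi
    have e1 : (((n - i : ℕ) : ℝ) - ((r - i : ℕ) : ℝ)) = (n:ℝ) - r := by
      rw [Nat.cast_sub (hi'.trans hr'), Nat.cast_sub hi']; ring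
    have e2 : t ^ r = t ^ i * t ^ (r - i) := by rw [← pow_add]; congr 1; omega
    have e3 := choose_fact r i hi'
    have e4 := A_one i
    rw [e1, mul_pow, e2]
    calc ((i:ℝ) + 1) ^ i * t ^ i / ((i + 1).factorial : ℝ) *
        ((A (r - i)).eval ((n:ℝ) - r) * t ^ (r - i) / ((r - i).factorial : ℝ))
        = (((i:ℝ) + 1) ^ i / ((i + 1).factorial : ℝ)) * (A (r - i)).eval ((n:ℝ) - r) *
          (t ^ i * t ^ (r - i)) * (1 / ((r - i).factorial : ℝ)) := by ring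
      _ = ((A i).eval 1) * (A (r - i)).eval ((n:ℝ) - r) *
          (t ^ i * t ^ (r - i)) * (1 / ((i.factorial : ℝ) * ((r - i).factorial : ℝ))) := by
        rw [← e4]; field_simp
      _ = _ := by rw [e3]; ring
  rw [sum_congr rfl h3, ← sum_mul, h2]
  have e5 : (n:ℝ) - r + 1 = ((n + 1 : ℕ) : ℝ) - r := by push_cast; ring
  rw [e5]; ring

theorem rate_poly (n : ℕ) (t : ℝ) :
    ∑ k ∈ range (n + 1), ((((n:ℝ) + 1) * t) ^ k / (k.factorial : ℝ))
      = ∑ i ∈ range (n + 1), ((i:ℝ) + 1) * ((((i:ℝ) + 1) * t) ^ i / ((i + 1).factorial : ℝ)) * mup (n - i) t := by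
  unfold mup
  simp_rw [mul_sum]
  rw [sum_reindex n (fun i k => ((i:ℝ) + 1) * ((((i:ℝ) + 1) * t) ^ i / ((i + 1).factorial : ℝ)) *
    ((A k).eval (((n - i : ℕ) : ℝ) - k) * t ^ k / (k.factorial : ℝ)))]
  apply sum_congr rfl
  intro r hr
  have hr' : r ≤ n := by simpa [Nat.lt_succ_iff] using hr
  have h2 := abel_one r ((n:ℝ) - r)
  have h3 : ∀ i ∈ range (r + 1), ((i:ℝ) + 1) * ((((i:ℝ) + 1) * t) ^ i / ((i + 1).factorial : ℝ)) *
      ((A (r - i)).eval (((n - i : ℕ) : ℝ) - ((r - i : ℕ) : ℝ)) * t ^ (r - i) / ((r - i).factorial : ℝ))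
      = ((((r.choose i : ℕ) : ℝ) * ((i:ℝ) + 1) ^ i) * (A (r - i)).eval ((n:ℝ) - r)) * (t ^ r / (r.factorial : ℝ)) := by
    intro i hi
    have hi' : i ≤ r := by simpa [Nat.lt_succ_iff] using hi
    have e1 : (((n - i : ℕ) : ℝ) - ((r - i : ℕ) : ℝ)) = (n:ℝ) - r := by
      rw [Nat.cast_sub (hi'.trans hr'), Nat.cast_sub hi']; ring
    have e2 : t ^ r = t ^ i * t ^ (r - i) := by rw [← pow_add]; congr 1; omega
    have e3 := choose_fact r i hi'
    have e4 : ((i + 1).factorial : ℝ) = ((i:ℝ) + 1) * (i.factorial : ℝ) := by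
      rw [Nat.factorial_succ]; push_cast; ring
    have e6 : ((i:ℝ) + 1) ≠ 0 := by positivity
    have e7 : (i.factorial : ℝ) ≠ 0 := by positivity
    rw [e1, mul_pow, e2, e4]
    calc ((i:ℝ) + 1) * (((i:ℝ) + 1) ^ i * t ^ i / (((i:ℝ) + 1) * (i.factorial : ℝ))) *
        ((A (r - i)).eval ((n:ℝ) - r) * t ^ (r - i) / ((r - i).factorial : ℝ))
        = ((i:ℝ) + 1) ^ i * (A (r - i)).eval ((n:ℝ) - r) *
          (t ^ i * t ^ (r - i)) * (1 / ((i.factorial : ℝ) * ((r - i).factorial : ℝ))) := by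
          field_simp
      _ = _ := by rw [e3]; ring
  rw [sum_congr rfl h3, ← sum_mul, h2]
  have e5 : (n:ℝ) - r + 1 + r = (n:ℝ) + 1 := by ring
  rw [e5, mul_pow]; ring

theorem exp_split (n i : ℕ) (h : i ≤ n) (t : ℝ) :
    Real.exp (-(((n + 1 : ℕ) : ℝ) * t)) = Real.exp (-(((n - i : ℕ) : ℝ) * t)) * Real.exp (-(((i:ℝ) + 1) * t)) := by
  rw [← Real.exp_add]
  congr 1
  rw [Nat.cast_sub h]; push_cast; ring

theorem mom_rec (n : ℕ) (t : ℝ) :
    mom (n + 1) t = ∑ i ∈ range (n + 1), mom (n - i) t * eta i t := by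
  rw [mom_eq, mup_rec, mul_sum]
  apply sum_congr rfl
  intro i hi
  have hi' : i ≤ n := by simpa [Nat.lt_succ_iff] using hi
  rw [exp_split n i hi', mom_eq, eta]
  ring

theorem rate_rec (n : ℕ) (t : ℝ) :
    rate (n + 1) t = ∑ i ∈ range (n + 1), ((i:ℝ) + 1) * mom (n - i) t * eta i t := by
  unfold rate
  have h := rate_poly n t
  push_cast
  rw [h, mul_sum]
  apply sum_congr rfl
  intro i hi
  have hi' : i ≤ n := by simpa [Nat.lt_succ_iff] using hi
  have := exp_split n i hi' t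
  push_cast at this
  rw [this, mom_eq, eta]
  ring

theorem mup_hasDeriv (p : ℕ) (hp : 1 ≤ p) (t : ℝ) :
    HasDerivAt (mup p) ((p:ℝ) * mup p t - ∑ k ∈ range p, (p * t) ^ k / (k.factorial : ℝ)) t := by
  have h1 : HasDerivAt (mup p) (∑ k ∈ range (p + 1), (A k).eval ((p:ℝ) - k) * ((k:ℝ) * t ^ (k - 1)) / (k.factorial : ℝ)) t := by
    unfold mup
    apply HasDerivAt.fun_sum
    intro k _
    exact ((hasDerivAt_pow k t).const_mul _).div_const _
  convert h1 using 1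
  obtain ⟨q, rfl⟩ : ∃ q, p = q + 1 := ⟨p - 1, by omega⟩
  rw [sum_range_succ' (fun k => (A k).eval (((q + 1 : ℕ) : ℝ) - k) * ((k:ℝ) * t ^ (k - 1)) / (k.factorial : ℝ))]
  unfold mup
  rw [mul_sum, sum_range_succ (fun k => ((q + 1 : ℕ) : ℝ) * ((A k).eval (((q + 1 : ℕ) : ℝ) - k) * t ^ k / (k.factorial : ℝ)))]
  rw [sub_self, A_eval_zero]
  simp only [zero_mul, zero_div, mul_zero, add_zero, Nat.cast_zero, Nat.add_sub_cancel]
  rw [← sum_sub_distrib]
  apply sum_congr rfl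
  intro k _
  have h2 := A_diag (q + 1) k (by omega)
  have h3 := A_diag (q + 1) (k + 1) (by omega)
  have hq : (((q + 1 : ℕ) : ℝ)) ≠ 0 := by positivity
  have h4 : (A (k+1)).eval (((q + 1 : ℕ) : ℝ) - ((k + 1 : ℕ) : ℝ)) = (((q + 1 : ℕ) : ℝ) - ((k + 1 : ℕ) : ℝ)) * (((q + 1 : ℕ) : ℝ)) ^ k := by
    have : ((q + 1 : ℕ) : ℝ) * (A (k+1)).eval (((q + 1 : ℕ) : ℝ) - ((k + 1 : ℕ) : ℝ))
        = ((q + 1 : ℕ) : ℝ) * ((((q + 1 : ℕ) : ℝ) - ((k + 1 : ℕ) : ℝ)) * (((q + 1 : ℕ) : ℝ)) ^ k) := by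
      rw [h3, pow_succ]; ring
    exact mul_left_cancel₀ hq this
  rw [h4]
  have h5 : ((k + 1).factorial : ℝ) = ((k:ℝ) + 1) * (k.factorial : ℝ) := by
    rw [Nat.factorial_succ]; push_cast; ring
  have h6 : (k.factorial : ℝ) ≠ 0 := by positivity
  have h7 : ((k:ℝ) + 1) ≠ 0 := by positivity
  rw [h5, mul_pow]
  have h8 : ((q + 1 : ℕ) : ℝ) * ((A k).eval (((q + 1 : ℕ) : ℝ) - k) * t ^ k / (k.factorial : ℝ))
      = ((((q + 1 : ℕ) : ℝ) - k) * (((q + 1 : ℕ) : ℝ)) ^ k) * t ^ k / (k.factorial : ℝ) := by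
    rw [← h2]; ring
  rw [h8]
  push_cast
  field_simp
  ring

theorem mom_hasDeriv (p : ℕ) (t : ℝ) : HasDerivAt (mom p) (-rate p t) t := by
  rcases Nat.eq_zero_or_pos p with rfl | hp
  · have : mom 0 = fun _ => 1 := by funext s; simp [mom]
    rw [this]
    simp only [rate, range_zero, sum_empty, mul_zero, neg_zero]
    exact hasDerivAt_const t 1
  · have h0 : mom p = fun s => Real.exp (-(p * s)) * mup p s := by funext s; exact mom_eq p s
    rw [h0]
    have h1 : HasDerivAt (fun s : ℝ => Real.exp (-((p:ℝ) * s))) (Real.exp (-((p:ℝ) * t)) * (-((p:ℝ) * 1))) t :=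
      (((hasDerivAt_id t).const_mul (p:ℝ)).neg).exp
    have h2 := h1.mul (mup_hasDeriv p hp t)
    refine h2.congr_deriv ?_
    unfold rate
    ring

theorem mom_nonneg (p : ℕ) (t : ℝ) (ht : 0 ≤ t) : 0 ≤ mom p t := by
  unfold mom
  split_ifs with h
  · norm_num
  · have hp : (0:ℝ) < p := by exact_mod_cast Nat.pos_of_ne_zero h
    apply mul_nonneg (Real.exp_pos _).le
    apply sum_nonneg
    intro k hk
    have hk' : (k:ℝ) ≤ p := by exact_mod_cast (mem_range.1 hk).le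
    have : 0 ≤ 1 - (k:ℝ) / p := by rw [sub_nonneg, div_le_one hp]; exact hk'
    positivity

theorem mom_le_one (p : ℕ) (t : ℝ) (ht : 0 ≤ t) : mom p t ≤ 1 := by
  unfold mom
  split_ifs with h
  · norm_num
  · have hp : (0:ℝ) < p := by exact_mod_cast Nat.pos_of_ne_zero h
    have hx : 0 ≤ (p:ℝ) * t := by positivity
    have h1 : ∑ k ∈ range p, (1 - (k:ℝ) / p) * (p * t) ^ k / (k.factorial : ℝ) ≤ Real.exp (p * t) := by
      refine le_trans (sum_le_sum (g := fun k => (p * t) ^ k / (k.factorial : ℝ)) ?_) (Real.sum_le_exp_of_nonneg hx p)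
      intro k _
      apply div_le_div_of_nonneg_right _ (by positivity)
      have : 0 ≤ (k:ℝ) / p := by positivity
      have h2 : 0 ≤ (p * t) ^ k := by positivity
      nlinarith
    rw [Real.exp_neg, inv_mul_le_iff₀ (Real.exp_pos _), mul_one]
    exact h1

end Pool.Agent.X145.DL
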