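import Pool.Agent.X145.DL.Haar2

/-! The product of projected unitaries and one step of the moment recursion. -/

set_option autoImplicit false
set_option linter.unusedSectionVars false

namespace Pool.Agent.X145.DL

open Finset Matrix MeasureTheory Pool.Agent.H667R2.FG
open scoped ComplexOrder

variable {N : ℕ}

/-- the product `(P s_{L-1}) ⋯ (P s_1) (P s_0)` -/
def prodB (P : Matrix (Fin N) (Fin N) ℂ) (s : ℕ → UU N) : ℕ → Matrix (Fin N) (Fin N) ℂ
  | 0 => 1
  | L + 1 => (P * (s L : Matrix (Fin N) (Fin N) ℂ)) * prodB P s L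

/-- `B B†` -/
def CC (P : Matrix (Fin N) (Fin N) ℂ) (s : ℕ → UU N) (L : ℕ) : Matrix (Fin N) (Fin N) ℂ :=
  prodB P s L * (prodB P s L)ᴴ

theorem CC_succ (P : Matrix (Fin N) (Fin N) ℂ) (s : ℕ → UU N) (L : ℕ) :
    CC P s (L + 1) = (P * (s L : Matrix (Fin N) (Fin N) ℂ)) * CC P s L * (P * (s L : Matrix (Fin N) (Fin N) ℂ))ᴴ := by
  unfold CC
  rw [prodB, conjTranspose_mul (P * (s L : Matrix (Fin N) (Fin N) ℂ))]
  simp only [mul_assoc]

theorem trace_pow_comm (X Y : Matrix (Fin N) (Fin N) ℂ) (p : ℕ) : ((X * Y) ^ p).trace = ((Y * X) ^ p).trace := by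
  have h : ∀ n, (X * Y) ^ n * X = X * (Y * X) ^ n := by
    intro n
    induction n with
    | zero => simp
    | succ n ih => rw [pow_succ', pow_succ', mul_assoc, ih]; simp only [mul_assoc]
  rcases p with _ | n
  · simp
  · rw [pow_succ, ← mul_assoc, h, trace_mul_comm, ← mul_assoc, pow_succ']

theorem proj_form (P : Matrix (Fin N) (Fin N) ℂ) (hN : 0 < N) (hP : Pᴴ = P) (hPP : P * P = P) (hr : P.rank = N - 1) :
    ∃ u : Fin N → ℂ, star u ⬝ᵥ u = 1 ∧ P = 1 - vecMulVec u (star u) := by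
  have h1 := LinearMap.finrank_range_add_finrank_ker P.mulVecLin
  have h2 : Module.finrank ℂ (LinearMap.range P.mulVecLin) = N - 1 := hr
  rw [h2, Module.finrank_fin_fun] at h1
  have h3 : Module.finrank ℂ (LinearMap.ker P.mulVecLin) = 1 := by omega
  obtain ⟨⟨v, hv⟩, hv0, hvs⟩ := finrank_eq_one_iff'.1 h3
  have hPv : P *ᵥ v = 0 := by simpa using hv
  have hvne : v ≠ 0 := by
    intro h; apply hv0; exact Subtype.ext h
  set r : ℝ := ∑ i, ‖v i‖ ^ 2 with hr
  have hvv : star v ⬝ᵥ v = (r : ℂ) := self_dot v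
  have hr0 : 0 < r := by
    rcases (sum_nonneg (fun i _ => by positivity) : 0 ≤ ∑ i, ‖v i‖ ^ 2).lt_or_eq with h | h
    · exact h
    · exfalso
      apply hvne
      rw [← hr] at h
      rw [← h] at hvv
      apply dotProduct_star_self_eq_zero.1
      rw [dotProduct_comm]
      simpa using hvv
  set c : ℝ := (Real.sqrt r)⁻¹ with hc
  have hcc : c * c * r = 1 := by
    rw [hc, ← mul_inv, Real.mul_self_sqrt hr0.le]
    field_simp
  have hc0 : c ≠ 0 := by
    intro h; rw [h] at hcc; simp at hcc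
  have hsc : star (c:ℂ) = c := Complex.conj_ofReal c
  refine ⟨(c:ℂ) • v, ?_, ?_⟩
  · rw [star_smul, smul_dotProduct, dotProduct_smul, hsc, hvv, smul_eq_mul, smul_eq_mul]
    have : c * (c * r) = 1 := by rw [← mul_assoc]; exact hcc
    exact_mod_cast this
  · apply Matrix.ext_of_mulVec_single
    intro i
    set x : Fin N → ℂ := Pi.single i 1 with hx
    rw [sub_mulVec, one_mulVec, vmv]
    have h4 : P *ᵥ (x - P *ᵥ x) = 0 := by
      rw [mulVec_sub, mulVec_mulVec, hPP, sub_self]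
    have h5 : (x - P *ᵥ x) ∈ LinearMap.ker P.mulVecLin := by simpa using h4
    obtain ⟨z, hz⟩ := hvs ⟨_, h5⟩
    have hz' : z • v = x - P *ᵥ x := by
      have := congrArg Subtype.val hz
      simpa using this
    have h6 : star v ⬝ᵥ (P *ᵥ x) = 0 := by
      rw [dotProduct_mulVec]
      have : star v ᵥ* P = star (P *ᵥ v) := by rw [star_mulVec, hP]
      rw [this, hPv]; simp
    have h7 : z * (r:ℂ) = star v ⬝ᵥ x := by
      have := congrArg (fun y => star v ⬝ᵥ y) hz'
      simp only [dotProduct_smul, dotProduct_sub, h6, sub_zero, hvv, smul_eq_mul] at this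
      exact this
    have h8 : (star ((c:ℂ) • v) ⬝ᵥ x) • ((c:ℂ) • v) = z • v := by
      rw [star_smul, smul_dotProduct, hsc, ← h7, smul_smul]
      congr 1
      have : ((c * c * r : ℝ) : ℂ) = 1 := by rw [hcc]; simp
      push_cast at this
      rw [smul_eq_mul]
      linear_combination z * this
    rw [h8, hz']
    abel

theorem contr_one : Contr (1 : Matrix (Fin N) (Fin N) ℂ) :=
  ⟨PosSemidef.one, by rw [sub_self]; exact PosSemidef.zero⟩

theorem contr_CC (P : Matrix (Fin N) (Fin N) ℂ) (hP : Pᴴ = P) (hPP : P * P = P) (s : ℕ → UU N) (L : ℕ) :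
    Contr (CC P s L) := by
  induction L with
  | zero =>
    have : CC P s 0 = 1 := by simp [CC, prodB]
    rw [this]; exact contr_one
  | succ L ih =>
    rw [CC_succ]
    set X := P * (s L : Matrix (Fin N) (Fin N) ℂ) with hX
    have hss : (s L : Matrix (Fin N) (Fin N) ℂ) * (s L : Matrix (Fin N) (Fin N) ℂ)ᴴ = 1 :=
      (mem_unitaryGroup_iff (A := (s L : Matrix (Fin N) (Fin N) ℂ))).1 (s L).2
    have hXX : X * Xᴴ = P := by
      rw [hX, conjTranspose_mul, hP]
      calc P * (s L : Matrix (Fin N) (Fin N) ℂ) * ((s L : Matrix (Fin N) (Fin N) ℂ)ᴴ * P)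
          = P * ((s L : Matrix (Fin N) (Fin N) ℂ) * (s L : Matrix (Fin N) (Fin N) ℂ)ᴴ) * P := by
            simp only [mul_assoc]
        _ = P := by rw [hss, mul_one, hPP]
    refine ⟨ih.pos.mul_mul_conjTranspose_same X, ?_⟩
    have h1 : 1 - X * CC P s L * Xᴴ = (1 - P) * (1 - P)ᴴ + X * (1 - CC P s L) * Xᴴ := by
      have a1 : X * (1 - CC P s L) * Xᴴ = P - X * CC P s L * Xᴴ := by
        rw [mul_sub, sub_mul, mul_one, hXX]
      have a2 : (1 - P) * (1 - P)ᴴ = 1 - P := by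
        rw [conjTranspose_sub, conjTranspose_one, hP, mul_sub, mul_one, sub_mul, one_mul, hPP]; abel
      rw [a1, a2]; abel
    rw [h1]
    exact (posSemidef_self_mul_conjTranspose _).add (ih.le.mul_mul_conjTranspose_same X)

theorem step_trace (P : Matrix (Fin N) (Fin N) ℂ) (hP : Pᴴ = P) (hPP : P * P = P) (u : Fin N → ℂ)
    (hPu : P = 1 - vecMulVec u (star u)) (C : Matrix (Fin N) (Fin N) ℂ) (s : UU N) (p : ℕ) :
    (((P * (s : Matrix (Fin N) (Fin N) ℂ)) * C * (P * (s : Matrix (Fin N) (Fin N) ℂ))ᴴ) ^ p).trace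
      = ((comp C (vec u s)) ^ p).trace := by
  set S := (s : Matrix (Fin N) (Fin N) ℂ) with hS
  have hss : Sᴴ * S = 1 := (mem_unitaryGroup_iff' (A := S)).1 s.2
  have e1 : (P * S) * C * (P * S)ᴴ = P * ((S * C * Sᴴ) * P) := by
    rw [conjTranspose_mul, hP]; simp only [mul_assoc]
  rw [e1, trace_pow_comm]
  have e2 : (S * C * Sᴴ) * P * P = S * (C * (Sᴴ * P)) := by
    rw [mul_assoc _ P P, hPP]; simp only [mul_assoc]
  rw [e2, trace_pow_comm]
  have e3 : C * (Sᴴ * P) * S = C * (Sᴴ * P * S) := by simp only [mul_assoc]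
  rw [e3, trace_pow_comm]
  congr 2
  unfold comp vec
  rw [hPu, mul_sub, sub_mul, mul_one, hss, sub_mul, one_mul]
  congr 2
  rw [star_mulVec, conjTranspose_conjTranspose]
  ext i j
  simp only [Matrix.mul_apply, vecMulVec_apply, mulVec, vecMul, dotProduct]
  rw [Finset.sum_mul_sum]
  rw [Finset.sum_comm]
  apply sum_congr rfl
  intro k _
  rw [Finset.sum_mul]
  apply sum_congr rfl
  intro l _
  ring

theorem mm_step (P : Matrix (Fin N) (Fin N) ℂ) (hP : Pᴴ = P) (hPP : P * P = P) (u : Fin N → ℂ)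
    (hu : star u ⬝ᵥ u = 1) (hPu : P = 1 - vecMulVec u (star u)) (s : ℕ → UU N) (L p : ℕ) :
    mm (CC P s (L + 1)) p = mm (CC P s L) p - (1 / (N:ℂ)) * drift (qf (CC P s L) (vec u (s L))) p := by
  unfold mm
  rw [CC_succ, step_trace P hP hPP u hPu, ← trace_step _ _ (vec_norm u hu (s L))]
  ring

end Pool.Agent.X145.DL
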